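import Pool.Agent.Lib.MP_b026a7_co.Defs

/-! A Golomb ruler in a short interval is small. -/

namespace Pool.Agent.Lib.MP_b026a7_co

open Finset

/-- a Golomb ruler inside an interval with `μ` integers has at most `sqrt (2 μ) + 1` marks -/
theorem golomb_interval {A : Finset ℕ} (hA : IsGolomb A) {a μ : ℕ} (hsub : ∀ x ∈ A, a ≤ x ∧ x < a + μ) :
    (A.card - 1) ^ 2 ≤ 2 * μ ∧ (μ = 0 → A.card = 0) := by
  classical
  have h0 : μ = 0 → A.card = 0 := by
    intro hμ
    rw [Finset.card_eq_zero, Finset.eq_empty_iff_forall_notMem]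
    intro x hx
    have := hsub x hx
    omega
  refine ⟨?_, h0⟩
  -- ordered pairs `(x, y)` with `x < y`
  have hmaps : ∀ q ∈ A.offDiag, ((q.1 : ℤ) - (q.2 : ℤ)) ∈ (Finset.Ioo (-(μ : ℤ)) (μ : ℤ)).erase 0 := by
    intro q hq
    rw [Finset.mem_offDiag] at hq
    have h1 := hsub q.1 hq.1
    have h2 := hsub q.2 hq.2.1
    rw [Finset.mem_erase, Finset.mem_Ioo]
    have := hq.2.2
    omega
  have hinj : Set.InjOn (fun q : ℕ × ℕ => ((q.1 : ℤ) - (q.2 : ℤ))) (A.offDiag : Set (ℕ × ℕ)) := by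
    intro q hq r hr h
    rw [Finset.mem_coe, Finset.mem_offDiag] at hq hr
    have := hA q.1 hq.1 q.2 hq.2.1 r.1 hr.1 r.2 hr.2.1 hq.2.2 hr.2.2 h
    exact Prod.ext this.1 this.2
  have hcard := Finset.card_le_card_of_injOn _ hmaps hinj
  rw [Finset.offDiag_card] at hcard
  rcases Nat.eq_zero_or_pos A.card with hA0 | hA0
  · rw [hA0]; simp
  · obtain ⟨x, hx⟩ := Finset.card_pos.mp hA0
    have hμ : 1 ≤ μ := by
      have := hsub x hx
      omega
    have hc : ((Finset.Ioo (-(μ : ℤ)) (μ : ℤ)).erase 0).card = 2 * μ - 2 := by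
      rw [Finset.card_erase_of_mem (by rw [Finset.mem_Ioo]; omega), Int.card_Ioo]
      omega
    rw [hc] at hcard
    obtain ⟨k, hk⟩ : ∃ k, A.card = k + 1 := ⟨A.card - 1, by omega⟩
    rw [hk] at hcard ⊢
    have h5 : (k + 1) * (k + 1) - (k + 1) = k * (k + 1) := by
      have : (k + 1) * (k + 1) = k * (k + 1) + (k + 1) := by ring
      omega
    rw [h5] at hcard
    have h6 : k + 1 - 1 = k := by omega
    rw [h6]
    have h7 : 2 * μ - 2 ≤ 2 * μ := Nat.sub_le _ _
    have h8 : k ^ 2 ≤ k * (k + 1) := by nlinarith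
    omega

end Pool.Agent.Lib.MP_b026a7_co
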