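import Pool.Agent.Lib.MP_b026a7_co.Lin

/-! Ruzsa coordinates: the two coordinates `x - g ^ x`, `x + g ^ x` of `x < p (p - 1)`. -/

namespace Pool.Agent.Lib.MP_b026a7_co

open Finset

/-- `p` an odd prime, `g` a generator of the multiplicative group: the first coordinate -/
noncomputable def cs {p : ℕ} (g : (ZMod p)ˣ) (x : ℕ) : ZMod p := (x : ZMod p) - ((g ^ x : (ZMod p)ˣ) : ZMod p)
/-- the second coordinate -/
noncomputable def cu {p : ℕ} (g : (ZMod p)ˣ) (x : ℕ) : ZMod p := (x : ZMod p) + ((g ^ x : (ZMod p)ˣ) : ZMod p)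

theorem plane_two_ne {p : ℕ} (hp3 : 3 ≤ p) : (2 : ZMod p) ≠ 0 := by
  intro h
  have h1 : ((2 : ℕ) : ZMod p) = 0 := by exact_mod_cast h
  rw [ZMod.natCast_eq_zero_iff] at h1
  have := Nat.le_of_dvd (by norm_num) h1
  omega

/-- `x` is determined by its residue and the power `g ^ x` -/
theorem plane_eq {p : ℕ} (hp : p.Prime) (g : (ZMod p)ˣ) (hg : orderOf g = p - 1)
    {x y : ℕ} (hx : x < p * (p - 1)) (hy : y < p * (p - 1))
    (h1 : ((g ^ x : (ZMod p)ˣ) : ZMod p) = ((g ^ y : (ZMod p)ˣ) : ZMod p))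
    (h2 : (x : ZMod p) = (y : ZMod p)) : x = y := by
  have hcop : Nat.Coprime p (p - 1) := by
    rw [Nat.coprime_comm]
    have : p = (p - 1) + 1 := by have := hp.two_le; omega
    rw [this]
    simp
  have h3 : g ^ x = g ^ y := Units.ext h1
  have h4 : x ≡ y [MOD (p - 1)] := by
    have := (pow_inj_mod (x := g) (n := x) (m := y)).mp h3
    rw [hg] at this
    exact this
  have h5 : x ≡ y [MOD p] := (ZMod.natCast_eq_natCast_iff x y p).mp h2
  have h6 : x ≡ y [MOD p * (p - 1)] := (Nat.modEq_and_modEq_iff_modEq_mul hcop).mp ⟨h5, h4⟩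
  exact Nat.ModEq.eq_of_lt_of_lt h6 hx hy

/-- the algebra common to the two families -/
theorem plane_core {p : ℕ} (hp : p.Prime) (g : (ZMod p)ˣ)
    {x y z w : ℕ} (hd : (x : ℤ) - y = (z : ℤ) - w)
    (h : ((g ^ x : (ZMod p)ˣ) : ZMod p) - ((g ^ y : (ZMod p)ˣ) : ZMod p)
        = ((g ^ z : (ZMod p)ˣ) : ZMod p) - ((g ^ w : (ZMod p)ˣ) : ZMod p)) :
    ((g ^ x : (ZMod p)ˣ) : ZMod p) = ((g ^ y : (ZMod p)ˣ) : ZMod p) ∨
      ((g ^ z : (ZMod p)ˣ) : ZMod p) = ((g ^ x : (ZMod p)ˣ) : ZMod p) := by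
  have : Fact p.Prime := ⟨hp⟩
  have h0 : x + w = y + z := by omega
  have h6 : ((g ^ y : (ZMod p)ˣ) : ZMod p) * ((g ^ z : (ZMod p)ˣ) : ZMod p)
      = ((g ^ x : (ZMod p)ˣ) : ZMod p) * ((g ^ w : (ZMod p)ˣ) : ZMod p) := by
    rw [← Units.val_mul, ← Units.val_mul, ← pow_add, ← pow_add, h0]
  generalize ((g ^ x : (ZMod p)ˣ) : ZMod p) = a at *
  generalize ((g ^ y : (ZMod p)ˣ) : ZMod p) = b at *
  generalize ((g ^ z : (ZMod p)ˣ) : ZMod p) = c at *
  generalize ((g ^ w : (ZMod p)ˣ) : ZMod p) = d at *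
  have h8 : (a - b) * (c - a) = 0 := by
    have hd : d = c - a + b := by linear_combination h
    rw [hd] at h6
    linear_combination -h6
  rcases mul_eq_zero.mp h8 with h9 | h9
  · exact Or.inl (sub_eq_zero.mp h9)
  · exact Or.inr (sub_eq_zero.mp h9)

theorem plane_cast {p : ℕ} {x y z w : ℕ} (hd : (x : ℤ) - y = (z : ℤ) - w) :
    (x : ZMod p) - (y : ZMod p) = (z : ZMod p) - (w : ZMod p) := by
  have h := congrArg (fun t : ℤ => (t : ZMod p)) hd
  push_cast at h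
  exact h

theorem cs_golomb {p : ℕ} (hp : p.Prime) (hp3 : 3 ≤ p) (g : (ZMod p)ˣ) (hg : orderOf g = p - 1)
    {x y z w : ℕ} (hx : x < p * (p - 1)) (hy : y < p * (p - 1)) (hz : z < p * (p - 1))
    (hxy : x ≠ y) (hd : (x : ℤ) - y = (z : ℤ) - w)
    (h1 : cs g x = cs g y) (h2 : cs g x = cs g z) (h3 : cs g x = cs g w) : x = z ∧ y = w := by
  unfold cs at h1 h2 h3
  have hc := plane_cast (p := p) hd
  rcases plane_core hp g hd (by linear_combination hc - h1 + h3 - h2) with h | h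
  · exact absurd (plane_eq hp g hg hx hy h (by linear_combination h1 + h)) hxy
  · have hxz : x = z := plane_eq hp g hg hx hz h.symm (by linear_combination h2 - h)
    subst hxz
    refine ⟨rfl, ?_⟩
    omega

theorem cu_golomb {p : ℕ} (hp : p.Prime) (hp3 : 3 ≤ p) (g : (ZMod p)ˣ) (hg : orderOf g = p - 1)
    {x y z w : ℕ} (hx : x < p * (p - 1)) (hy : y < p * (p - 1)) (hz : z < p * (p - 1))
    (hxy : x ≠ y) (hd : (x : ℤ) - y = (z : ℤ) - w)
    (h1 : cu g x = cu g y) (h2 : cu g x = cu g z) (h3 : cu g x = cu g w) : x = z ∧ y = w := by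
  unfold cu at h1 h2 h3
  have hc := plane_cast (p := p) hd
  rcases plane_core hp g hd (by linear_combination -hc + h1 - h3 + h2) with h | h
  · exact absurd (plane_eq hp g hg hx hy h (by linear_combination h1 - h)) hxy
  · have hxz : x = z := plane_eq hp g hg hx hz h.symm (by linear_combination h2 + h)
    subst hxz
    refine ⟨rfl, ?_⟩
    omega

theorem coord_inj {p : ℕ} (hp : p.Prime) (hp3 : 3 ≤ p) (g : (ZMod p)ˣ) (hg : orderOf g = p - 1)
    {x y : ℕ} (hx : x < p * (p - 1)) (hy : y < p * (p - 1))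
    (h1 : cs g x = cs g y) (h2 : cu g x = cu g y) : x = y := by
  have : Fact p.Prime := ⟨hp⟩
  have h2' := plane_two_ne hp3
  unfold cs at h1
  unfold cu at h2
  have hxy : (x : ZMod p) = (y : ZMod p) := by
    apply mul_left_cancel₀ h2'
    linear_combination h1 + h2
  exact plane_eq hp g hg hx hy (by linear_combination h2 - hxy) hxy

theorem coord_ne {p : ℕ} (hp : p.Prime) (hp3 : 3 ≤ p) (g : (ZMod p)ˣ) (x : ℕ) :
    cs g x ≠ cu g x := by
  have : Fact p.Prime := ⟨hp⟩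
  have h2' := plane_two_ne hp3
  intro h
  unfold cs cu at h
  have h1 : (2 : ZMod p) * ((g ^ x : (ZMod p)ˣ) : ZMod p) = 0 := by
    linear_combination -h
  rcases mul_eq_zero.mp h1 with h3 | h3
  · exact h2' h3
  · exact (g ^ x).ne_zero h3

theorem coord_surj {p : ℕ} (hp : p.Prime) (hp3 : 3 ≤ p) (g : (ZMod p)ˣ) (hg : orderOf g = p - 1)
    {a b : ZMod p} (hab : a ≠ b) : ∃ x < p * (p - 1), cs g x = a ∧ cu g x = b := by
  have : Fact p.Prime := ⟨hp⟩
  have h2' := plane_two_ne hp3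
  have hcop : Nat.Coprime (p - 1) p := by
    have : p = (p - 1) + 1 := by omega
    rw [this]
    simp
  have hpos : 0 < p * (p - 1) := Nat.mul_pos hp.pos (by omega)
  have ht : (b - a) / 2 ≠ 0 := div_ne_zero (sub_ne_zero.mpr (Ne.symm hab)) h2'
  obtain ⟨t, ht'⟩ : ∃ t : (ZMod p)ˣ, (t : ZMod p) = (b - a) / 2 := ⟨Units.mk0 _ ht, rfl⟩
  have hgen : ∀ t : (ZMod p)ˣ, t ∈ Subgroup.zpowers g := by
    intro t
    have hcard : Nat.card (Subgroup.zpowers g) = Nat.card (ZMod p)ˣ := by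
      rw [Nat.card_zpowers, hg, Nat.card_eq_fintype_card, ZMod.card_units p]
    have htop : Subgroup.zpowers g = ⊤ := Subgroup.eq_top_of_card_eq _ hcard
    rw [htop]
    exact Subgroup.mem_top t
  obtain ⟨k, hk⟩ : ∃ k : ℕ, g ^ k = t := by
    have := hgen t
    rw [mem_zpowers_iff_mem_range_orderOf, Finset.mem_image] at this
    obtain ⟨k, _, hk⟩ := this
    exact ⟨k, hk⟩
  let v : ℕ := ((a + b) / 2 : ZMod p).val
  let c := Nat.chineseRemainder hcop k v
  let x : ℕ := (c : ℕ) % (p * (p - 1))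
  have hx1 : x ≡ k [MOD (p - 1)] :=
    ((Nat.mod_modEq _ (p * (p - 1))).of_mul_left p).trans c.2.1
  have hx2 : x ≡ v [MOD p] :=
    ((Nat.mod_modEq _ (p * (p - 1))).of_mul_right (p - 1)).trans c.2.2
  have hgx : g ^ x = t := by
    rw [← hk, pow_inj_mod, hg]
    exact hx1
  have hxv : (x : ZMod p) = (a + b) / 2 := by
    have h1 := (ZMod.natCast_eq_natCast_iff x v p).mpr hx2
    rw [h1]
    exact ZMod.natCast_zmod_val _
  refine ⟨x, Nat.mod_lt _ hpos, ?_, ?_⟩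
  · unfold cs
    rw [hgx, hxv, ht']
    field_simp
    ring
  · unfold cu
    rw [hgx, hxv, ht']
    field_simp
    ring

theorem exists_gen {p : ℕ} (hp : p.Prime) : ∃ g : (ZMod p)ˣ, orderOf g = p - 1 := by
  have : Fact p.Prime := ⟨hp⟩
  obtain ⟨g, hg⟩ := IsCyclic.exists_generator (α := (ZMod p)ˣ)
  refine ⟨g, ?_⟩
  rw [orderOf_eq_card_of_forall_mem_zpowers hg, Nat.card_eq_fintype_card, ZMod.card_units p]

end Pool.Agent.Lib.MP_b026a7_co
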