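import Mathlib

/-! Degree constrained subgraphs of nearly complete bipartite graphs, by an exchange argument.
A subgraph with all column degrees `J` is a function `A : U → Finset S`. -/

set_option autoImplicit false

namespace Pool.Agent.Lib.MP_b026a7_co

open Finset

section swap

variable {S U : Type} [Fintype S] [Fintype U] [DecidableEq S] [DecidableEq U]

set_option linter.unusedSectionVars false

/-- row degree -/
private def swR (A : U → Finset S) (s : S) : ℕ := (univ.filter (fun u => s ∈ A u)).card

private theorem swR_sum (A : U → Finset S) (W : Finset S) :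
    ∑ s ∈ W, swR A s = ∑ u, (A u ∩ W).card := by
  unfold swR
  simp only [card_filter]
  rw [sum_comm]
  refine sum_congr rfl fun u _ => ?_
  rw [← card_filter]
  congr 1
  ext s
  simp [and_comm]

/-- exchange `x ∈ A u` for `y ∉ A u` -/
private def swEx (A : U → Finset S) (u : U) (x y : S) : U → Finset S :=
  Function.update A u (insert y ((A u).erase x))

private theorem swEx_R (A : U → Finset S) (u : U) (x y : S) (hx : x ∈ A u) (hy : y ∉ A u) (z : S) :
    swR (swEx A u x y) z + (if z = x then 1 else 0) = swR A z + (if z = y then 1 else 0) := by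
  have hxy : x ≠ y := fun h => hy (h ▸ hx)
  unfold swR swEx
  rw [card_filter, card_filter]
  rw [← add_sum_erase univ _ (mem_univ u),
    ← add_sum_erase univ (fun v => if z ∈ A v then 1 else 0) (mem_univ u)]
  have h1 : ∑ v ∈ univ.erase u,
      (if z ∈ Function.update A u (insert y ((A u).erase x)) v then 1 else 0) =
      ∑ v ∈ univ.erase u, (if z ∈ A v then 1 else 0) := by
    refine sum_congr rfl fun v hv => ?_
    rw [Function.update_of_ne (ne_of_mem_erase hv)]
  rw [h1, Function.update_self]
  simp only [mem_insert, mem_erase]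
  by_cases hzx : z = x
  · subst hzx
    simp [hx, hxy]
    omega
  · by_cases hzy : z = y
    · subst hzy
      simp [hy, hzx]
      omega
    · simp [hzx, hzy]

/-- valid choices -/
private def swV (N : U → Finset S) (J : ℕ) (A : U → Finset S) : Prop :=
  ∀ u, A u ⊆ N u ∧ (A u).card = J

private theorem swEx_V {N : U → Finset S} {J : ℕ} {A : U → Finset S} (hA : swV N J A) (u : U)
    (x y : S) (hx : x ∈ A u) (hy : y ∉ A u) (hyN : y ∈ N u) : swV N J (swEx A u x y) := by
  intro v
  unfold swEx
  by_cases hv : v = u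
  · subst hv
    rw [Function.update_self]
    refine ⟨?_, ?_⟩
    · intro z hz
      rcases mem_insert.1 hz with rfl | hz
      · exact hyN
      · exact (hA v).1 (mem_of_mem_erase hz)
    · rw [card_insert_of_notMem (fun h => hy (mem_of_mem_erase h)), card_erase_of_mem hx]
      have h1 : 0 < (A v).card := card_pos.2 ⟨x, hx⟩
      have h2 := (hA v).2
      omega
  · rw [Function.update_of_ne hv]
    exact hA v

/-- the potential -/
private def swPhi (d : S → ℕ) (A : U → Finset S) : ℕ := ∑ z, ((swR A z : ℤ) - d z).natAbs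

private theorem swPhi_lt (d : S → ℕ) (A B : U → Finset S) (s s' : S) (hss : s ≠ s')
    (h : ∀ z, swR B z + (if z = s then 1 else 0) = swR A z + (if z = s' then 1 else 0))
    (h1 : d s < swR A s) (h2 : swR A s' < d s') : swPhi d B < swPhi d A := by
  unfold swPhi
  apply sum_lt_sum
  · intro z _
    have hz := h z
    by_cases hzs : z = s
    · subst hzs
      rw [if_pos rfl, if_neg hss] at hz
      omega
    · by_cases hzs' : z = s'
      · subst hzs'
        rw [if_neg hzs, if_pos rfl] at hz
        omega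
      · rw [if_neg hzs, if_neg hzs'] at hz
        omega
  · refine ⟨s, mem_univ s, ?_⟩
    have hz := h s
    rw [if_pos rfl, if_neg hss] at hz
    omega

/-- the two exchanges -/
private theorem sw_ex1 {N : U → Finset S} {J : ℕ} {d : S → ℕ} {A : U → Finset S} (hA : swV N J A)
    (hmin : ∀ B, swV N J B → swPhi d A ≤ swPhi d B) {s s' : S}
    (h1 : d s < swR A s) (h2 : swR A s' < d s') {u : U} (hu : s ∈ A u) (hu' : s' ∈ N u) :
    s' ∈ A u := by
  by_contra hcon
  have hss : s ≠ s' := fun h => hcon (h ▸ hu)
  have hB := swEx_V hA u s s' hu hcon hu'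
  have := swPhi_lt d A _ s s' hss (swEx_R A u s s' hu hcon) h1 h2
  exact absurd (hmin _ hB) (not_le.2 this)

private theorem sw_ex2 {N : U → Finset S} {J : ℕ} {d : S → ℕ} {A : U → Finset S} (hA : swV N J A)
    (hmin : ∀ B, swV N J B → swPhi d A ≤ swPhi d B) {s s' : S}
    (h1 : d s < swR A s) (h2 : swR A s' < d s') {u1 u2 : U} (hu1 : s ∈ A u1) (hu2 : s' ∈ N u2)
    (hu2' : s' ∉ A u2) {t : S} (ht : t ∈ A u2) (htN : t ∈ N u1) : t ∈ A u1 := by
  by_contra hcon
  have hne : u1 ≠ u2 := by
    rintro rfl
    exact hu2' (sw_ex1 hA hmin h1 h2 hu1 hu2)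
  have hss : s ≠ s' := by
    rintro rfl
    omega
  have hA' := swEx_V hA u1 s t hu1 hcon htN
  have e2 : swEx A u1 s t u2 = A u2 := by
    unfold swEx
    rw [Function.update_of_ne hne.symm]
  have ht' : t ∈ swEx A u1 s t u2 := by rw [e2]; exact ht
  have hs' : s' ∉ swEx A u1 s t u2 := by rw [e2]; exact hu2'
  have hB := swEx_V hA' u2 t s' ht' hs' hu2
  have hr : ∀ z, swR (swEx (swEx A u1 s t) u2 t s') z + (if z = s then 1 else 0) =
      swR A z + (if z = s' then 1 else 0) := by
    intro z
    have a1 := swEx_R A u1 s t hu1 hcon z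
    have a2 := swEx_R (swEx A u1 s t) u2 t s' ht' hs' z
    omega
  have := swPhi_lt d A _ s s' hss hr h1 h2
  exact absurd (hmin _ hB) (not_le.2 this)

end swap

/-- degree constrained subgraph of a nearly complete bipartite graph -/
theorem swap_lemma {S U : Type} [Fintype S] [Fintype U] [DecidableEq S] [DecidableEq U]
    (G : Finset (S × U)) (p m J b D : ℕ)
    (hS : Fintype.card S = p) (hU : Fintype.card U = m)
    (hrow : ∀ s : S, (univ.filter (fun u : U => (s, u) ∉ G)).card ≤ b)
    (hcol : ∀ u : U, (univ.filter (fun s : S => (s, u) ∉ G)).card ≤ b)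
    (d : S → ℕ) (hd : ∀ s, d s ≤ D ∧ D ≤ d s + b) (hsum : ∑ s, d s = m * J)
    (hJp : J ≤ p)
    (hnum : 2 * b * p * (m + J) + 3 * b * J * (p - J) < m * J * (p - J)) :
    ∃ T : Finset (S × U), T ⊆ G ∧ (∀ s, (T.filter (fun x => x.1 = s)).card = d s) ∧
      (∀ u, (T.filter (fun x => x.2 = u)).card = J) := by
  obtain ⟨q, rfl⟩ : ∃ q, p = J + q := ⟨p - J, by omega⟩
  rw [Nat.add_sub_cancel_left] at hnum
  have hpos : 0 < m * J * q := by omega
  have hJ0 : 0 < J := Nat.pos_of_ne_zero (by rintro rfl; simp at hpos)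
  have hq0 : 0 < q := Nat.pos_of_ne_zero (by rintro rfl; simp at hpos)
  have hm0 : 0 < m := Nat.pos_of_ne_zero (by rintro rfl; simp at hpos)
  have hbq : 2 * b < q := by
    by_contra hcon
    push Not at hcon
    have h1 : m * J * q ≤ m * J * (2 * b) := Nat.mul_le_mul_left _ hcon
    have h2 : m * J * (2 * b) ≤ 2 * b * (J + q) * (m + J) := by
      calc m * J * (2 * b) = 2 * b * J * m := by ring
        _ ≤ 2 * b * (J + q) * (m + J) := by gcongr <;> omega
    omega
  have hbJ : 2 * b < J := by
    by_contra hcon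
    push Not at hcon
    have h1 : m * J * q ≤ m * (2 * b) * q := by gcongr
    have h2 : m * (2 * b) * q ≤ 2 * b * (J + q) * (m + J) := by
      calc m * (2 * b) * q = 2 * b * q * m := by ring
        _ ≤ 2 * b * (J + q) * (m + J) := by gcongr <;> omega
    omega
  have hbm : 2 * b < m := by
    by_contra hcon
    push Not at hcon
    have h1 : m * J * q ≤ (2 * b) * J * q := by gcongr
    have h2 : (2 * b) * J * q ≤ 2 * b * (J + q) * (m + J) := by
      calc (2 * b) * J * q = 2 * b * q * J := by ring
        _ ≤ 2 * b * (J + q) * (m + J) := by gcongr <;> omega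
    omega
  have hDm : D + b ≤ m := by
    by_contra hcon
    push Not at hcon
    have h1 : (J + q) * D ≤ m * J + (J + q) * b := by
      have h2 : ∑ _s : S, D ≤ ∑ s, (d s + b) := sum_le_sum fun s _ => (hd s).2
      rw [sum_add_distrib, hsum, sum_const, sum_const, card_univ, hS] at h2
      simpa using h2
    have h3 : (J + q) * (m + 1) ≤ (J + q) * (D + b) := Nat.mul_le_mul_left _ hcon
    have h4 : 2 * b * (J + q) < m * q := by
      by_contra hc
      push Not at hc
      have h5 : m * J * q ≤ 2 * b * (J + q) * (m + J) := by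
        calc m * J * q = (m * q) * J := by ring
          _ ≤ (2 * b * (J + q)) * J := Nat.mul_le_mul_right _ hc
          _ ≤ 2 * b * (J + q) * (m + J) := by gcongr; omega
      omega
    nlinarith
  -- the initial choice
  obtain ⟨N, hN⟩ : ∃ N : U → Finset S, N = fun u => univ.filter (fun s => (s, u) ∈ G) := ⟨_, rfl⟩
  have hNm : ∀ u s, s ∈ N u ↔ (s, u) ∈ G := by
    intro u s
    rw [hN]
    simp
  have hNc : ∀ u, J ≤ (N u).card := by
    intro u
    have h1 := card_filter_add_card_filter_not (s := (univ : Finset S)) (fun s => (s, u) ∈ G)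
    rw [card_univ, hS] at h1
    have h2 := hcol u
    have h3 : (N u).card = (univ.filter (fun s => (s, u) ∈ G)).card := by rw [hN]
    omega
  have hex : ∃ A, swV N J A := by
    have : ∀ u, ∃ T ⊆ N u, T.card = J := fun u => exists_subset_card_eq (hNc u)
    choose A hA using this
    exact ⟨A, hA⟩
  obtain ⟨A, hA, hmin⟩ : ∃ A, swV N J A ∧ ∀ B, swV N J B → swPhi d A ≤ swPhi d B := by
    classical
    have hex' : ∃ n, ∃ A, swV N J A ∧ swPhi d A = n := by
      obtain ⟨A, hA⟩ := hex
      exact ⟨_, A, hA, rfl⟩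
    obtain ⟨A, hA, hn⟩ := Nat.find_spec hex'
    refine ⟨A, hA, fun B hB => ?_⟩
    rw [hn]
    exact Nat.find_min' hex' ⟨B, hB, rfl⟩
  have hcardA : ∀ u, (A u).card = J := fun u => (hA u).2
  have htot : ∑ s, swR A s = m * J := by
    rw [swR_sum A univ]
    simp only [inter_univ, hcardA, sum_const, card_univ, hU, smul_eq_mul]
  have hmain : ∀ s, swR A s = d s := by
    by_contra hcon
    push Not at hcon
    obtain ⟨s0, hs0⟩ := hcon
    obtain ⟨f, hf⟩ : ∃ f : S → ℤ, f = fun s => (swR A s : ℤ) - d s := ⟨_, rfl⟩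
    have hfsum : ∑ s, f s = 0 := by
      rw [hf, sum_sub_distrib]
      have e1 : ∑ s, (swR A s : ℤ) = ((∑ s, swR A s : ℕ) : ℤ) := by push_cast; rfl
      have e2 : ∑ s, (d s : ℤ) = ((∑ s, d s : ℕ) : ℤ) := by push_cast; rfl
      rw [e1, e2, htot, hsum, sub_self]
    have hf0 : f s0 ≠ 0 := by
      rw [hf]
      simp only
      omega
    obtain ⟨s, -, hs⟩ := exists_max_image univ f ⟨s0, mem_univ s0⟩
    obtain ⟨s', -, hs'⟩ := exists_min_image univ f ⟨s0, mem_univ s0⟩
    have hfs : 0 < f s := by
      by_contra hc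
      push Not at hc
      have h1 : ∀ i ∈ univ, f i ≤ 0 := fun i hi => (hs i hi).trans hc
      exact hf0 ((sum_eq_zero_iff_of_nonpos h1).1 hfsum s0 (mem_univ s0))
    have hfs' : f s' < 0 := by
      by_contra hc
      push Not at hc
      have h1 : ∀ i ∈ univ, 0 ≤ f i := fun i hi => hc.trans (hs' i hi)
      exact hf0 ((sum_eq_zero_iff_of_nonneg h1).1 hfsum s0 (mem_univ s0))
    have g1 : d s < swR A s := by
      rw [hf] at hfs
      simp only at hfs
      omega
    have g2 : swR A s' < d s' := by
      rw [hf] at hfs'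
      simp only at hfs'
      omega
    obtain ⟨P, hP⟩ : ∃ P : Finset U, P = univ.filter (fun u => s ∈ A u) := ⟨_, rfl⟩
    obtain ⟨Q, hQ⟩ : ∃ Q : Finset U, Q = univ.filter (fun u => s' ∈ N u ∧ s' ∉ A u) := ⟨_, rfl⟩
    have hPm : ∀ u, u ∈ P ↔ s ∈ A u := by
      intro u
      rw [hP]
      simp
    have hQm : ∀ u, u ∈ Q ↔ (s' ∈ N u ∧ s' ∉ A u) := by
      intro u
      rw [hQ]
      simp
    have hPQ : Disjoint P Q := by
      rw [disjoint_left]
      intro u h1 h2
      rw [hPm] at h1
      rw [hQm] at h2
      exact h2.2 (sw_ex1 hA hmin g1 g2 h1 h2.1)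
    have hPc : P.card = swR A s := by
      rw [hP]
      rfl
    have hrow' : ∀ t : S, (univ.filter (fun u => t ∉ N u)).card ≤ b := by
      intro t
      have e : univ.filter (fun u => t ∉ N u) = univ.filter (fun u : U => (t, u) ∉ G) := by
        ext u
        simp [hNm]
      rw [e]
      exact hrow t
    have hcol' : ∀ u : U, (univ.filter (fun t => t ∉ N u)).card ≤ b := by
      intro u
      have e : univ.filter (fun t => t ∉ N u) = univ.filter (fun t : S => (t, u) ∉ G) := by
        ext t
        simp [hNm]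
      rw [e]
      exact hcol u
    have hQc : m ≤ Q.card + swR A s' + b := by
      have h1 : (univ : Finset U) ⊆ (Q ∪ univ.filter (fun u => s' ∈ A u)) ∪
          univ.filter (fun u => s' ∉ N u) := by
        intro u _
        rw [mem_union, mem_union, hQm]
        simp only [mem_filter, mem_univ, true_and]
        tauto
      have h2 := card_le_card h1
      rw [card_univ, hU] at h2
      have h3 := card_union_le (Q ∪ univ.filter (fun u => s' ∈ A u)) (univ.filter (fun u => s' ∉ N u))
      have h4 := card_union_le Q (univ.filter (fun u => s' ∈ A u))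
      have h5 := hrow' s'
      have h6 : (univ.filter (fun u => s' ∈ A u)).card = swR A s' := rfl
      omega
    have hPle : P.card ≤ swR A s' + b := by
      have h1 : P ⊆ univ.filter (fun u => s' ∈ A u) ∪ univ.filter (fun u => s' ∉ N u) := by
        intro u hu
        have hu' : u ∉ Q := disjoint_left.1 hPQ hu
        rw [hQm] at hu'
        simp only [mem_union, mem_filter, mem_univ, true_and]
        tauto
      have h2 := card_le_card h1
      have h3 := card_union_le (univ.filter (fun u => s' ∈ A u)) (univ.filter (fun u => s' ∉ N u))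
      have h5 := hrow' s'
      have h6 : (univ.filter (fun u => s' ∈ A u)).card = swR A s' := rfl
      omega
    have hds := hd s
    have hds' := hd s'
    have hPne : P.Nonempty := by
      rw [← card_pos]
      omega
    have hQne : Q.Nonempty := by
      rw [← card_pos]
      omega
    obtain ⟨u1, hu1⟩ := hPne
    obtain ⟨u2, hu2⟩ := hQne
    have hdiff : ∀ u ∈ P, ∀ v ∈ Q, (A v \ A u).card ≤ b := by
      intro u hu v hv
      refine (card_le_card ?_).trans (hcol' u)
      intro t ht
      rw [mem_sdiff] at ht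
      rw [hPm] at hu
      rw [hQm] at hv
      simp only [mem_filter, mem_univ, true_and]
      intro htN
      exact ht.2 (sw_ex2 hA hmin g1 g2 hu hv.1 hv.2 ht.1 htN)
    obtain ⟨W, hW⟩ : ∃ W : Finset S, W = A u1 := ⟨_, rfl⟩
    have hWc : W.card = J := by rw [hW]; exact hcardA u1
    have hinter : ∀ u ∈ P ∪ Q, J ≤ (A u ∩ W).card + 2 * b := by
      intro u hu
      rcases mem_union.1 hu with h | h
      · have h1 : A u2 ⊆ (A u2 \ A u) ∪ (A u2 \ W) ∪ (A u ∩ W) := by
          intro t ht
          simp only [mem_union, mem_sdiff, mem_inter]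
          tauto
        have h2 := card_le_card h1
        have h3 := card_union_le ((A u2 \ A u) ∪ (A u2 \ W)) (A u ∩ W)
        have h4 := card_union_le (A u2 \ A u) (A u2 \ W)
        have h5 := hdiff u h u2 hu2
        have h6 := hdiff u1 hu1 u2 hu2
        rw [← hW] at h6
        have h7 := hcardA u2
        omega
      · have h1 : A u ⊆ (A u \ W) ∪ (A u ∩ W) := by
          intro t ht
          simp only [mem_union, mem_sdiff, mem_inter]
          tauto
        have h2 := card_le_card h1
        have h3 := card_union_le (A u \ W) (A u ∩ W)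
        have h6 := hdiff u1 hu1 u h
        rw [← hW] at h6
        have h7 := hcardA u
        omega
    have hSW : ∑ x ∈ W, swR A x = ∑ u, (A u ∩ W).card := swR_sum A W
    have hlow : (P.card + Q.card) * (J - 2 * b) ≤ ∑ x ∈ W, swR A x := by
      rw [hSW, ← card_union_of_disjoint hPQ]
      calc (P ∪ Q).card * (J - 2 * b) = ∑ _u ∈ P ∪ Q, (J - 2 * b) := by
            rw [sum_const, smul_eq_mul]
        _ ≤ ∑ u ∈ P ∪ Q, (A u ∩ W).card := sum_le_sum fun u hu => by
            have := hinter u hu
            omega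
        _ ≤ ∑ u, (A u ∩ W).card := sum_le_sum_of_subset (subset_univ _)
    have hWne : W.Nonempty := by
      rw [← card_pos]
      omega
    obtain ⟨x, hxW, hx⟩ : ∃ x ∈ W, ∑ x ∈ W, swR A x ≤ J * swR A x := by
      by_contra hc
      push Not at hc
      have h1 := sum_lt_sum_of_nonempty hWne hc
      rw [← mul_sum, sum_const, hWc, smul_eq_mul] at h1
      exact lt_irrefl _ h1
    have hWcc : Wᶜ.card = q := by
      rw [card_compl, hS, hWc]
      omega
    have hWcne : Wᶜ.Nonempty := by
      rw [← card_pos]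
      omega
    obtain ⟨y, hyW, hy⟩ : ∃ y ∈ Wᶜ, q * swR A y ≤ ∑ y ∈ Wᶜ, swR A y := by
      by_contra hc
      push Not at hc
      have h1 := sum_lt_sum_of_nonempty hWcne hc
      rw [← mul_sum, sum_const, hWcc, smul_eq_mul] at h1
      exact lt_irrefl _ h1
    have hcompl : ∑ y ∈ W, swR A y + ∑ y ∈ Wᶜ, swR A y = m * J := by
      rw [sum_add_sum_compl, htot]
    have hfx := hs x (mem_univ x)
    have hfy := hs' y (mem_univ y)
    rw [hf] at hfx hfy
    simp only at hfx hfy
    have hdx := hd x
    have hdy := hd y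
    have k1 : swR A x ≤ swR A s' + 2 * b := by omega
    have k2 : swR A s' ≤ swR A y + b := by omega
    have k3 : m - 2 * b ≤ P.card + Q.card := by omega
    have k4 : (m - 2 * b) * (J - 2 * b) ≤ ∑ x ∈ W, swR A x :=
      (Nat.mul_le_mul_right _ k3).trans hlow
    obtain ⟨m', hm'⟩ : ∃ m', m = m' + 2 * b := ⟨m - 2 * b, by omega⟩
    obtain ⟨J', hJ'⟩ : ∃ J', J = J' + 2 * b := ⟨J - 2 * b, by omega⟩
    have e1 : m - 2 * b = m' := by omega
    have e2 : J - 2 * b = J' := by omega
    rw [e1, e2] at k4
    generalize ∑ x ∈ W, swR A x = X at *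
    generalize ∑ x ∈ Wᶜ, swR A x = Y at *
    generalize swR A x = rx at *
    generalize swR A y = ry at *
    generalize swR A s' = rs at *
    -- `J (rs + 2 b) ≥ X`, `q rs ≤ Y + q b`
    have c1 : X ≤ J * (rs + 2 * b) := hx.trans (Nat.mul_le_mul_left _ k1)
    have c2 : q * rs ≤ Y + q * b := by
      have : q * rs ≤ q * (ry + b) := Nat.mul_le_mul_left _ k2
      rw [mul_add] at this
      omega
    zify at c1 c2 k4 hcompl hnum hm' hJ'
    have c3 : (q : ℤ) * X ≤ q * (J * (rs + 2 * b)) := mul_le_mul_of_nonneg_left c1 (by positivity)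
    have c4 : (J : ℤ) * (q * rs) ≤ J * (Y + q * b) := mul_le_mul_of_nonneg_left c2 (by positivity)
    have c5 : ((J : ℤ) + q) * (m' * J') ≤ (J + q) * X := mul_le_mul_of_nonneg_left k4 (by positivity)
    have c6 : (m' : ℤ) * J' = m * J - 2 * b * (m + J) + 4 * b ^ 2 := by
      rw [hm', hJ']
      ring
    rw [c6] at c5
    have c7 : (0 : ℤ) ≤ (J + q) * (4 * b ^ 2) := by positivity
    have c8 : (Y : ℤ) = m * J - X := by linarith
    rw [c8] at c4
    nlinarith
  -- the subgraph
  refine ⟨univ.filter (fun x : S × U => x.1 ∈ A x.2), ?_, ?_, ?_⟩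
  · intro x hx
    rw [mem_filter] at hx
    have := (hA x.2).1 hx.2
    rw [hNm] at this
    exact this
  · intro s
    have e : (univ.filter (fun x : S × U => x.1 ∈ A x.2)).filter (fun x => x.1 = s) =
        (univ.filter (fun u => s ∈ A u)).image (fun u => (s, u)) := by
      ext ⟨a, u⟩
      simp only [mem_filter, mem_univ, true_and, mem_image, Prod.mk.injEq]
      constructor
      · rintro ⟨h1, rfl⟩
        exact ⟨u, h1, rfl, rfl⟩
      · rintro ⟨v, h1, rfl, rfl⟩
        exact ⟨h1, rfl⟩
    rw [e, card_image_of_injective _ (fun u v h => (Prod.mk.inj h).2)]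
    exact hmain s
  · intro u
    have e : (univ.filter (fun x : S × U => x.1 ∈ A x.2)).filter (fun x => x.2 = u) =
        (A u).image (fun s => (s, u)) := by
      ext ⟨a, v⟩
      simp only [mem_filter, mem_univ, true_and, mem_image, Prod.mk.injEq]
      constructor
      · rintro ⟨h1, rfl⟩
        exact ⟨a, h1, rfl, rfl⟩
      · rintro ⟨t, h1, rfl, rfl⟩
        exact ⟨h1, rfl⟩
    rw [e, card_image_of_injective _ (fun s t h => (Prod.mk.inj h).1)]
    exact hcardA u

end Pool.Agent.Lib.MP_b026a7_co
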