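import Pool.Agent.Lib.MP_b026a7_co.Family
import Pool.Agent.Lib.MP_b026a7_co.Plane
import Pool.Agent.Lib.MP_b026a7_co.GolInt
import Pool.Agent.Lib.MP_b026a7_co.Swap

namespace Pool.Agent.Lib.MP_b026a7_co

open Finset

theorem H_eq_of_near {p I J b : ℕ} (hp : p.Prime) (hp3 : 3 ≤ p) (hN : I * J ≤ p * (p - 1))
    (hJ : J < p) (hI : p ≤ I) (hI2 : I ≤ 2 * p) (hb2 : 2 ≤ b)
    (hb : 2 * (p * (p - 1) - I * J) ≤ (b - 2) ^ 2)
    (hnum : 2 * b * p * ((I - p) + J) + 3 * b * J * (p - J) < (I - p) * J * (p - J)) :
    H I J = I * J := by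
  classical
  have : Fact p.Prime := ⟨hp⟩
  obtain ⟨g, hg⟩ := exists_gen hp
  obtain ⟨N, hNdef⟩ : ∃ N, N = I * J := ⟨_, rfl⟩
  obtain ⟨n0, hn0⟩ : ∃ n0, n0 = p * (p - 1) := ⟨_, rfl⟩
  rw [← hn0, ← hNdef] at hN hb
  -- the points
  have hex : ∀ a c : ZMod p, ∃ x : ℕ, a ≠ c → (x < n0 ∧ cs g x = a ∧ cu g x = c) := by
    intro a c
    by_cases hac : a = c
    · exact ⟨0, fun h => absurd hac h⟩
    · obtain ⟨x, hx, h1, h2⟩ := coord_surj hp hp3 g hg hac
      exact ⟨x, fun _ => ⟨by rw [hn0]; exact hx, h1, h2⟩⟩
  choose pt hpt using hex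
  have hinj : ∀ x y, x < n0 → y < n0 → cs g x = cs g y → cu g x = cu g y → x = y := by
    intro x y hx hy h1 h2
    rw [hn0] at hx hy
    exact coord_inj hp hp3 g hg hx hy h1 h2
  -- golomb classes
  have hcsG : ∀ (A : Finset ℕ) (s : ZMod p), (∀ x ∈ A, x < n0 ∧ cs g x = s) → IsGolomb A := by
    intro A s hA x hx y hy z hz w hw hxy _ hd
    have e1 := hA x hx
    have e2 := hA y hy
    have e3 := hA z hz
    have e4 := hA w hw
    rw [hn0] at e1 e2 e3
    exact cs_golomb hp hp3 g hg e1.1 e2.1 e3.1 hxy hd (by rw [e1.2, e2.2]) (by rw [e1.2, e3.2])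
      (by rw [e1.2, e4.2])
  have hcuG : ∀ (A : Finset ℕ) (s : ZMod p), (∀ x ∈ A, x < n0 ∧ cu g x = s) → IsGolomb A := by
    intro A s hA x hx y hy z hz w hw hxy _ hd
    have e1 := hA x hx
    have e2 := hA y hy
    have e3 := hA z hz
    have e4 := hA w hw
    rw [hn0] at e1 e2 e3
    exact cu_golomb hp hp3 g hg e1.1 e2.1 e3.1 hxy hd (by rw [e1.2, e2.2]) (by rw [e1.2, e3.2])
      (by rw [e1.2, e4.2])
  -- small classes in the missing interval
  have hsmall : ∀ A : Finset ℕ, IsGolomb A → (∀ x ∈ A, N ≤ x ∧ x < n0) → A.card ≤ b - 1 := by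
    intro A hA hsub
    have h1 := (golomb_interval hA (a := N) (μ := n0 - N) (fun x hx => by
      have := hsub x hx
      omega)).1
    have h2 : (A.card - 1) ^ 2 ≤ (b - 2) ^ 2 := le_trans h1 hb
    have h3 : A.card - 1 ≤ b - 2 := by
      exact (Nat.pow_le_pow_iff_left (by norm_num)).mp h2
    omega
  have hmcs : ∀ s : ZMod p, (((range n0).filter (fun x => N ≤ x ∧ cs g x = s))).card ≤ b - 1 := by
    intro s
    apply hsmall
    · apply hcsG _ s
      intro x hx
      rw [mem_filter, mem_range] at hx
      exact ⟨hx.1, hx.2.2⟩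
    · intro x hx
      rw [mem_filter, mem_range] at hx
      exact ⟨hx.2.1, hx.1⟩
  have hmcu : ∀ s : ZMod p, (((range n0).filter (fun x => N ≤ x ∧ cu g x = s))).card ≤ b - 1 := by
    intro s
    apply hsmall
    · apply hcuG _ s
      intro x hx
      rw [mem_filter, mem_range] at hx
      exact ⟨hx.1, hx.2.2⟩
    · intro x hx
      rw [mem_filter, mem_range] at hx
      exact ⟨hx.2.1, hx.1⟩
  -- the classes
  have hfull : ∀ s : ZMod p, ((range n0).filter (fun x => cs g x = s)).card = p - 1 := by
    intro s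
    have h1 : ((range n0).filter (fun x => cs g x = s)).card
        = ((univ : Finset (ZMod p)).erase s).card := by
      apply Finset.card_bij (fun x _ => cu g x)
      · intro x hx
        rw [mem_filter, mem_range] at hx
        rw [mem_erase]
        refine ⟨?_, mem_univ _⟩
        rw [← hx.2]
        exact (coord_ne hp hp3 g x).symm
      · intro x hx y hy hxy
        rw [mem_filter, mem_range] at hx hy
        exact hinj x y hx.1 hy.1 (by rw [hx.2, hy.2]) hxy
      · intro c hc
        rw [mem_erase] at hc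
        have h2 := hpt s c hc.1.symm
        exact ⟨pt s c, by rw [mem_filter, mem_range]; exact ⟨h2.1, h2.2.1⟩, h2.2.2⟩
    rw [h1, card_erase_of_mem (mem_univ _), card_univ, ZMod.card]
  obtain ⟨r, hr⟩ : ∃ r : ZMod p → ℕ, ∀ s, r s = ((range N).filter (fun x => cs g x = s)).card :=
    ⟨_, fun _ => rfl⟩
  have hrsplit : ∀ s, r s + ((range n0).filter (fun x => N ≤ x ∧ cs g x = s)).card = p - 1 := by
    intro s
    rw [hr, ← hfull s, ← card_union_of_disjoint]
    · congr 1
      ext x
      simp only [mem_union, mem_filter, mem_range]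
      constructor
      · rintro (⟨h1, h2⟩ | ⟨h1, h2, h3⟩)
        · exact ⟨by omega, h2⟩
        · exact ⟨h1, h3⟩
      · rintro ⟨h1, h2⟩
        by_cases h : x < N
        · exact Or.inl ⟨h, h2⟩
        · exact Or.inr ⟨h1, by omega, h2⟩
    · rw [disjoint_left]
      intro x hx hx'
      rw [mem_filter, mem_range] at hx hx'
      omega
  have hrsum : ∑ s : ZMod p, r s = N := by
    have h1 := card_eq_sum_card_fiberwise (s := range N) (t := (univ : Finset (ZMod p)))
      (f := fun x => cs g x) (fun _ _ => by simp)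
    rw [card_range] at h1
    rw [h1]
    exact sum_congr rfl (fun s _ => hr s)
  -- numbers
  have hJpos : 0 < J := by
    rcases Nat.eq_zero_or_pos J with h | h
    · rw [h] at hnum
      simp at hnum
    · exact h
  have hpJ : 2 * b < p - J := by
    by_contra hcon
    push Not at hcon
    have h1 : (I - p) * J * (p - J) ≤ (I - p) * J * (2 * b) := Nat.mul_le_mul_left _ hcon
    have h2 : (I - p) * J * (2 * b) ≤ 2 * b * p * ((I - p) + J) := by
      have : (I - p) * J ≤ p * ((I - p) + J) := by
        calc (I - p) * J ≤ (I - p) * p := Nat.mul_le_mul_left _ hJ.le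
          _ = p * (I - p) := Nat.mul_comm _ _
          _ ≤ p * ((I - p) + J) := Nat.mul_le_mul_left _ (Nat.le_add_right _ _)
      calc (I - p) * J * (2 * b) ≤ (p * ((I - p) + J)) * (2 * b) := Nat.mul_le_mul_right _ this
        _ = 2 * b * p * ((I - p) + J) := by ring
    have h3 := Nat.zero_le (3 * b * J * (p - J))
    omega
  have hrge : ∀ s, J ≤ r s := by
    intro s
    have h1 := hrsplit s
    have h2 := hmcs s
    omega
  -- the columns
  obtain ⟨Us, _, hUs⟩ := Finset.exists_subset_card_eq
    (s := (univ : Finset (ZMod p))) (n := I - p) (by rw [card_univ, ZMod.card]; omega)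
  -- the graph
  obtain ⟨G, hG⟩ : ∃ G : Finset (ZMod p × {u // u ∈ Us}), ∀ q, q ∈ G ↔
      (q.1 ≠ (q.2 : ZMod p) ∧ pt q.1 q.2 < N) :=
    ⟨univ.filter (fun q => q.1 ≠ (q.2 : ZMod p) ∧ pt q.1 q.2 < N), fun q => by simp⟩
  have hT := swap_lemma G p (I - p) J b (p - 1 - J) (ZMod.card p)
    (by rw [Fintype.card_coe]; exact hUs) ?_ ?_ (fun s => r s - J) ?_ ?_ hJ.le hnum
  · obtain ⟨T, hTG, hT1, hT2⟩ := hT
    have hTp : ∀ q ∈ T, q.1 ≠ (q.2 : ZMod p) ∧ pt q.1 q.2 < N ∧ pt q.1 q.2 < n0 ∧
        cs g (pt q.1 q.2) = q.1 ∧ cu g (pt q.1 q.2) = q.2 := by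
      intro q hq
      have h1 := (hG q).mp (hTG hq)
      have h2 := hpt q.1 q.2 h1.1
      exact ⟨h1.1, h1.2, h2.1, h2.2.1, h2.2.2⟩
    obtain ⟨X, hX⟩ : ∃ X : Finset ℕ, X = T.image (fun q => pt q.1 q.2) := ⟨_, rfl⟩
    have hXmem : ∀ x ∈ X, ∃ q ∈ T, pt q.1 q.2 = x ∧ x < N ∧ x < n0 ∧ cs g x = q.1 ∧
        cu g x = q.2 := by
      intro x hx
      rw [hX, mem_image] at hx
      obtain ⟨q, hq, rfl⟩ := hx
      have h := hTp q hq
      exact ⟨q, hq, rfl, h.2.1, h.2.2.1, h.2.2.2.1, h.2.2.2.2⟩
    have hptinj : Set.InjOn (fun q : ZMod p × {u // u ∈ Us} => pt q.1 q.2) T := by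
      intro q hq q' hq' h
      have h1 := hTp q hq
      have h2 := hTp q' hq'
      simp only at h
      rw [h] at h1
      apply Prod.ext
      · rw [← h1.2.2.2.1, h2.2.2.2.1]
      · apply Subtype.ext
        rw [← h1.2.2.2.2, h2.2.2.2.2]
    have hXcs : ∀ s : ZMod p, (X.filter (fun x => cs g x = s)).card = r s - J := by
      intro s
      rw [← hT1 s]
      symm
      apply Finset.card_bij (fun q _ => pt q.1 q.2)
      · intro q hq
        rw [mem_filter] at hq ⊢
        refine ⟨?_, ?_⟩
        · rw [hX]
          exact mem_image_of_mem _ hq.1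
        · rw [(hTp q hq.1).2.2.2.1, hq.2]
      · intro q hq q' hq' h
        rw [mem_filter] at hq hq'
        exact hptinj hq.1 hq'.1 h
      · intro x hx
        rw [mem_filter] at hx
        obtain ⟨q, hq, h1, _, _, h2, _⟩ := hXmem x hx.1
        exact ⟨q, by rw [mem_filter]; exact ⟨hq, by rw [← h2, hx.2]⟩, h1⟩
    have hXcu : ∀ u : {u // u ∈ Us}, (X.filter (fun x => cu g x = u)).card = J := by
      intro u
      rw [← hT2 u]
      symm
      apply Finset.card_bij (fun q _ => pt q.1 q.2)
      · intro q hq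
        rw [mem_filter] at hq ⊢
        refine ⟨?_, ?_⟩
        · rw [hX]
          exact mem_image_of_mem _ hq.1
        · rw [(hTp q hq.1).2.2.2.2, hq.2]
      · intro q hq q' hq' h
        rw [mem_filter] at hq hq'
        exact hptinj hq.1 hq'.1 h
      · intro x hx
        rw [mem_filter] at hx
        obtain ⟨q, hq, h1, _, _, _, h2⟩ := hXmem x hx.1
        exact ⟨q, by rw [mem_filter]; exact ⟨hq, Subtype.ext (by rw [← h2, hx.2])⟩, h1⟩
    refine H_eq_of_family (ι := ZMod p ⊕ {u // u ∈ Us}) ?_ (fun i => Sum.elim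
      (fun s => ((range N).filter (fun x => cs g x = s)) \ X)
      (fun u => X.filter (fun x => cu g x = u)) i) ?_ ?_ ?_ ?_
    · rw [Fintype.card_sum, ZMod.card, Fintype.card_coe, hUs]
      omega
    · rintro (s | u)
      · show (((range N).filter (fun x => cs g x = s)) \ X).card = J
        have h1 : (((range N).filter (fun x => cs g x = s)) \ X)
            = ((range N).filter (fun x => cs g x = s)) \ (X.filter (fun x => cs g x = s)) := by
          ext x
          simp only [mem_sdiff, mem_filter]
          tauto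
        rw [h1, card_sdiff_of_subset, hXcs s, ← hr s]
        · have := hrge s
          omega
        · intro x hx
          rw [mem_filter] at hx
          obtain ⟨q, _, _, h2, _⟩ := hXmem x hx.1
          rw [mem_filter, mem_range]
          exact ⟨h2, hx.2⟩
      · exact hXcu u
    · rintro (s | u) x hx
      · replace hx : x ∈ ((range N).filter (fun x => cs g x = s)) \ X := hx
        rw [mem_sdiff, mem_filter, mem_range] at hx
        rw [← hNdef]
        exact hx.1.1
      · replace hx : x ∈ X.filter (fun x => cu g x = u) := hx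
        rw [mem_filter] at hx
        obtain ⟨q, _, _, h2, _⟩ := hXmem x hx.1
        rw [← hNdef]
        exact h2
    · rintro (s | u)
      · apply hcsG _ s
        intro x hx
        replace hx : x ∈ ((range N).filter (fun x => cs g x = s)) \ X := hx
        rw [mem_sdiff, mem_filter, mem_range] at hx
        exact ⟨by omega, hx.1.2⟩
      · apply hcuG _ u
        intro x hx
        replace hx : x ∈ X.filter (fun x => cu g x = u) := hx
        rw [mem_filter] at hx
        obtain ⟨q, _, _, _, h2, _⟩ := hXmem x hx.1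
        exact ⟨h2, hx.2⟩
    · rintro (s | u) (s' | u') hne
      · rw [disjoint_left]
        intro x hx hx'
        replace hx : x ∈ ((range N).filter (fun x => cs g x = s)) \ X := hx
        replace hx' : x ∈ ((range N).filter (fun x => cs g x = s')) \ X := hx'
        rw [mem_sdiff, mem_filter] at hx hx'
        apply hne
        rw [← hx.1.2, ← hx'.1.2]
      · rw [disjoint_left]
        intro x hx hx'
        replace hx : x ∈ ((range N).filter (fun x => cs g x = s)) \ X := hx
        replace hx' : x ∈ X.filter (fun x => cu g x = u') := hx'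
        rw [mem_sdiff] at hx
        rw [mem_filter] at hx'
        exact hx.2 hx'.1
      · rw [disjoint_left]
        intro x hx' hx
        replace hx : x ∈ ((range N).filter (fun x => cs g x = s')) \ X := hx
        replace hx' : x ∈ X.filter (fun x => cu g x = u) := hx'
        rw [mem_sdiff] at hx
        rw [mem_filter] at hx'
        exact hx.2 hx'.1
      · rw [disjoint_left]
        intro x hx hx'
        replace hx : x ∈ X.filter (fun x => cu g x = u) := hx
        replace hx' : x ∈ X.filter (fun x => cu g x = u') := hx'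
        rw [mem_filter] at hx hx'
        apply hne
        congr 1
        apply Subtype.ext
        rw [← hx.2, ← hx'.2]
  · -- rows
    intro s
    have h1 : (univ.filter (fun u : {u // u ∈ Us} => (s, u) ∉ G)).card
        ≤ (insert s (((range n0).filter (fun x => N ≤ x ∧ cs g x = s)).image
          (fun x => cu g x))).card := by
      apply Finset.card_le_card_of_injOn (fun u : {u // u ∈ Us} => (u : ZMod p))
      · intro u hu
        have hu' : (s, u) ∉ G := by simpa using hu
        rw [hG] at hu'
        push Not at hu'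
        rw [mem_coe, mem_insert]
        by_cases hsu : s = (u : ZMod p)
        · exact Or.inl hsu.symm
        · right
          have h2 := hu' hsu
          have h3 := hpt s u hsu
          rw [mem_image]
          exact ⟨pt s u, by rw [mem_filter, mem_range]; exact ⟨h3.1, h2, h3.2.1⟩, h3.2.2⟩
      · intro u _ v _ h
        exact Subtype.ext h
    refine le_trans h1 (le_trans (card_insert_le _ _) ?_)
    have h4 := hmcs s
    have h5 := Finset.card_image_le (s := ((range n0).filter (fun x => N ≤ x ∧ cs g x = s)))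
      (f := fun x => cu g x)
    omega
  · -- columns
    intro u
    have h1 : (univ.filter (fun s : ZMod p => (s, u) ∉ G)).card
        ≤ (insert (u : ZMod p) (((range n0).filter (fun x => N ≤ x ∧ cu g x = u)).image
          (fun x => cs g x))).card := by
      apply Finset.card_le_card
      intro s hs
      have hu' : (s, u) ∉ G := by simpa using hs
      rw [hG] at hu'
      push Not at hu'
      rw [mem_insert]
      by_cases hsu : s = (u : ZMod p)
      · exact Or.inl hsu
      · right
        have h2 := hu' hsu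
        have h3 := hpt s u hsu
        rw [mem_image]
        exact ⟨pt s u, by rw [mem_filter, mem_range]; exact ⟨h3.1, h2, h3.2.2⟩, h3.2.1⟩
    refine le_trans h1 (le_trans (card_insert_le _ _) ?_)
    have h4 := hmcu u
    have h5 := Finset.card_image_le (s := ((range n0).filter (fun x => N ≤ x ∧ cu g x = u)))
      (f := fun x => cs g x)
    omega
  · intro s
    have h1 := hrsplit s
    have h2 := hmcs s
    have h3 := hrge s
    show r s - J ≤ p - 1 - J ∧ p - 1 - J ≤ r s - J + b
    omega
  · show ∑ s : ZMod p, (r s - J) = (I - p) * J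
    have h1 : ∑ s : ZMod p, (r s - J) + ∑ _s : ZMod p, J = N := by
      rw [← sum_add_distrib, ← hrsum]
      apply sum_congr rfl
      intro s _
      have := hrge s
      omega
    rw [sum_const, card_univ, ZMod.card, smul_eq_mul] at h1
    rw [Nat.sub_mul, ← hNdef]
    omega

end Pool.Agent.Lib.MP_b026a7_co
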