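import Mathlib

namespace Pool.Agent.Lib.MP_b026a7_co

/-- the differences `a - b` of distinct elements of `A` are pairwise distinct -/
def IsGolomb (A : Finset ℕ) : Prop :=
  ∀ a ∈ A, ∀ b ∈ A, ∀ c ∈ A, ∀ d ∈ A, a ≠ b → c ≠ d →
    (a : ℤ) - (b : ℤ) = (c : ℤ) - (d : ℤ) → a = c ∧ b = d

/-- `A 0, ..., A (I-1)` is an `(I,J,n)`-DGR: pairwise disjoint `J`-mark Golomb rulers in
`{1,...,n}` -/
def IsDGR (I J n : ℕ) (A : Fin I → Finset ℕ) : Prop :=
  (∀ i, (A i).card = J ∧ A i ⊆ Finset.Icc 1 n ∧ IsGolomb (A i)) ∧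
    ∀ i j, i ≠ j → Disjoint (A i) (A j)

/-- the least `n` for which an `(I,J,n)`-DGR exists -/
noncomputable def H (I J : ℕ) : ℕ := sInf {n : ℕ | ∃ A : Fin I → Finset ℕ, IsDGR I J n A}

theorem dgr_le {I J n : ℕ} {A : Fin I → Finset ℕ} (h : IsDGR I J n A) : I * J ≤ n := by
  have h1 : (Finset.univ.biUnion A).card = ∑ i : Fin I, (A i).card := by
    apply Finset.card_biUnion
    intro i _ j _ hij
    exact h.2 i j hij
  have h2 : ∑ i : Fin I, (A i).card = I * J := by
    rw [Finset.sum_congr rfl (fun i _ => (h.1 i).1)]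
    simp
  have h3 : (Finset.univ.biUnion A).card ≤ (Finset.Icc 1 n).card := by
    apply Finset.card_le_card
    intro x hx
    rw [Finset.mem_biUnion] at hx
    obtain ⟨i, _, hi⟩ := hx
    exact (h.1 i).2.1 hi
  rw [h1, h2] at h3
  simpa using h3

theorem H_eq_of_regular {I J : ℕ} (A : Fin I → Finset ℕ) (h : IsDGR I J (I * J) A) :
    H I J = I * J := by
  apply le_antisymm
  · exact Nat.sInf_le ⟨A, h⟩
  · have hne : {n : ℕ | ∃ A : Fin I → Finset ℕ, IsDGR I J n A}.Nonempty := ⟨I * J, A, h⟩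
    obtain ⟨B, hB⟩ := Nat.sInf_mem hne
    exact dgr_le hB

/-- rows: the ruler number `t` has in row `r` the element `r * I + (f r + t) % I + 1` -/
def rowRuler (I J : ℕ) (f : ℕ → ℕ) (t : ℕ) : Finset ℕ :=
  (Finset.range J).image (fun r => r * I + (f r + t) % I + 1)

theorem rows_regular {I J : ℕ} (hI : 1 ≤ I) (f : ℕ → ℕ)
    (hg : ∀ t < I, ∀ r < J, ∀ s < J, ∀ r' < J, ∀ s' < J, r ≠ s → r' ≠ s' →
      ((r : ℤ) - s) * I + (((f r + t) % I : ℕ) : ℤ) - (((f s + t) % I : ℕ) : ℤ)
        = ((r' : ℤ) - s') * I + (((f r' + t) % I : ℕ) : ℤ) - (((f s' + t) % I : ℕ) : ℤ) →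
      r = r' ∧ s = s') :
    H I J = I * J := by
  have hmod : ∀ a, a % I < I := fun a => Nat.mod_lt _ hI
  have hrow : ∀ r t, (r * I + (f r + t) % I) / I = r := by
    intro r t
    rw [Nat.add_comm, Nat.add_mul_div_right _ _ (by omega : 0 < I), Nat.div_eq_of_lt (hmod _),
      Nat.zero_add]
  refine H_eq_of_regular (fun t : Fin I => rowRuler I J f t) ⟨?_, ?_⟩
  · intro t
    refine ⟨?_, ?_, ?_⟩
    · show (rowRuler I J f t).card = J
      unfold rowRuler
      rw [Finset.card_image_of_injOn, Finset.card_range]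
      intro r _ s _ hrs
      have h : r * I + (f r + t) % I = s * I + (f s + t) % I := by
        simpa using hrs
      rw [← hrow r t, ← hrow s t, h]
    · intro x hx
      simp only [rowRuler, Finset.mem_image, Finset.mem_range] at hx
      obtain ⟨r, hr, rfl⟩ := hx
      rw [Finset.mem_Icc]
      constructor
      · omega
      · have h1 := hmod (f r + t)
        have h2 : (r + 1) * I ≤ J * I := Nat.mul_le_mul_right _ hr
        nlinarith
    · intro a ha b hb c hc d hd hab hcd h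
      simp only [rowRuler, Finset.mem_image, Finset.mem_range] at ha hb hc hd
      obtain ⟨r, hr, rfl⟩ := ha
      obtain ⟨s, hs, rfl⟩ := hb
      obtain ⟨r', hr', rfl⟩ := hc
      obtain ⟨s', hs', rfl⟩ := hd
      have h1 : r ≠ s := by
        rintro rfl
        exact hab rfl
      have h2 : r' ≠ s' := by
        rintro rfl
        exact hcd rfl
      have h3 := hg t t.2 r hr s hs r' hr' s' hs' h1 h2 (by
        push_cast at h ⊢
        linarith)
      obtain ⟨rfl, rfl⟩ := h3
      exact ⟨rfl, rfl⟩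
  · intro t t' htt
    rw [Finset.disjoint_left]
    intro x hx hx'
    simp only [rowRuler, Finset.mem_image, Finset.mem_range] at hx hx'
    obtain ⟨r, hr, rfl⟩ := hx
    obtain ⟨s, hs, h⟩ := hx'
    have h0 : s * I + (f s + t') % I = r * I + (f r + t) % I := by
      simpa using h
    have hsr : s = r := by
      rw [← hrow s t', ← hrow r t, h0]
    subst hsr
    have h1 : (f s + t') % I = (f s + t) % I := by
      simpa using h0
    have h2 : (f s + (t' : ℕ)) ≡ (f s + (t : ℕ)) [MOD I] := h1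
    have h3 : (t' : ℕ) ≡ (t : ℕ) [MOD I] := Nat.ModEq.add_left_cancel' _ h2
    have h4 : (t' : ℕ) = (t : ℕ) := Nat.ModEq.eq_of_lt_of_lt h3 t'.2 t.2
    exact htt (Fin.ext h4.symm)

/-- columns: a set `{x i : i < J}` with `x i ≡ i (mod J)`, which is a Sidon set modulo `I * J`,
gives a regular DGR -/
theorem cols_regular {I J : ℕ} (hI : 1 ≤ I) (hJ : 1 ≤ J) (x : ℕ → ℕ)
    (hx : ∀ i < J, x i % J = i)
    (hg : ∀ i < J, ∀ j < J, ∀ k < J, ∀ l < J, i ≠ j → k ≠ l →
      ((I * J : ℕ) : ℤ) ∣ ((x i : ℤ) - x j) - ((x k : ℤ) - x l) → i = k ∧ j = l) :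
    H I J = I * J := by
  have hIJ : 0 < I * J := Nat.mul_pos hI hJ
  have hmod : ∀ a, a % (I * J) < I * J := fun a => Nat.mod_lt _ hIJ
  have hcls : ∀ i < J, ∀ t, ((x i + t * J) % (I * J)) % J = i := by
    intro i hi t
    rw [Nat.mod_mul_left_mod, Nat.add_mul_mod_self_right, hx i hi]
  refine H_eq_of_regular (fun t : Fin I => (Finset.range J).image
    (fun i => (x i + t * J) % (I * J) + 1)) ⟨?_, ?_⟩
  · intro t
    refine ⟨?_, ?_, ?_⟩
    · rw [Finset.card_image_of_injOn, Finset.card_range]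
      intro i hi j hj hij
      have hi' : i < J := by simpa using hi
      have hj' : j < J := by simpa using hj
      have h : (x i + t * J) % (I * J) = (x j + t * J) % (I * J) := by
        simpa using hij
      rw [← hcls i hi' t, ← hcls j hj' t, h]
    · intro y hy
      simp only [Finset.mem_image, Finset.mem_range] at hy
      obtain ⟨i, hi, rfl⟩ := hy
      rw [Finset.mem_Icc]
      have := hmod (x i + t * J)
      omega
    · intro a ha b hb c hc d hd hab hcd h
      simp only [Finset.mem_image, Finset.mem_range] at ha hb hc hd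
      obtain ⟨i, hi, rfl⟩ := ha
      obtain ⟨j, hj, rfl⟩ := hb
      obtain ⟨k, hk, rfl⟩ := hc
      obtain ⟨l, hl, rfl⟩ := hd
      have h1 : i ≠ j := by
        rintro rfl
        exact hab rfl
      have h2 : k ≠ l := by
        rintro rfl
        exact hcd rfl
      have key : ∀ i : ℕ, ∃ q : ℤ, (((x i + t * J) % (I * J) : ℕ) : ℤ)
          = x i + (t : ℕ) * J - q * ((I * J : ℕ) : ℤ) := by
        intro i
        refine ⟨((x i + t * J) / (I * J) : ℕ), ?_⟩
        have h5 := Nat.mod_add_div (x i + t * J) (I * J)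
        have h6 : (((x i + t * J) % (I * J) : ℕ) : ℤ)
          + ((I * J : ℕ) : ℤ) * (((x i + t * J) / (I * J) : ℕ) : ℤ)
          = ((x i + t * J : ℕ) : ℤ) := by exact_mod_cast h5
        rw [Nat.cast_add, Nat.cast_mul (t : ℕ) J] at h6
        linarith
      obtain ⟨qi, hqi⟩ := key i
      obtain ⟨qj, hqj⟩ := key j
      obtain ⟨qk, hqk⟩ := key k
      obtain ⟨ql, hql⟩ := key l
      have h3 := hg i hi j hj k hk l hl h1 h2 (by
        refine ⟨qi - qj - qk + ql, ?_⟩
        rw [Nat.cast_add, Nat.cast_add, Nat.cast_add, Nat.cast_add, hqi, hqj, hqk, hql] at h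
        linarith)
      obtain ⟨rfl, rfl⟩ := h3
      exact ⟨rfl, rfl⟩
  · intro t t' htt
    rw [Finset.disjoint_left]
    intro y hy hy'
    simp only [Finset.mem_image, Finset.mem_range] at hy hy'
    obtain ⟨i, hi, rfl⟩ := hy
    obtain ⟨j, hj, h⟩ := hy'
    have h0 : (x j + t' * J) % (I * J) = (x i + t * J) % (I * J) := by
      simpa using h
    have hji : j = i := by
      rw [← hcls j hj t', ← hcls i hi t, h0]
    subst hji
    have h2 : (x j + (t' : ℕ) * J) ≡ (x j + (t : ℕ) * J) [MOD I * J] := h0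
    have h3 : (t' : ℕ) * J ≡ (t : ℕ) * J [MOD I * J] := Nat.ModEq.add_left_cancel' _ h2
    have h4 : (t' : ℕ) ≡ (t : ℕ) [MOD I] :=
      Nat.ModEq.mul_right_cancel' (by omega) h3
    have h5 : (t' : ℕ) = (t : ℕ) := Nat.ModEq.eq_of_lt_of_lt h4 t'.2 t.2
    exact htt (Fin.ext h5.symm)

end Pool.Agent.Lib.MP_b026a7_co
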