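import Pool.Agent.Lib.MP_b026a7_co.Assemble

namespace Pool.Agent.Lib.MP_b026a7_co

/-- the numeric part of `H_eq_of_explicit` -/
theorem explicit_num {p I J : ℕ} (hJI : J < I) (hI3 : I ≤ 3 * J)
    (hN : I * J ≤ p * (p - 1))
    (hC : 10 ^ 6 * J ^ 2 * (p ^ 2 - I * J) ≤ (I - J) ^ 4) :
    3 ≤ p ∧ J < p ∧ p ≤ I ∧ I ≤ 2 * p ∧ ∃ b : ℕ, 2 ≤ b ∧
      2 * (p * (p - 1) - I * J) ≤ (b - 2) ^ 2 ∧
      2 * b * p * ((I - p) + J) + 3 * b * J * (p - J) < (I - p) * J * (p - J) := by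
  have hJ0 : 0 < J := by omega
  have hp0 : 0 < p := by
    rcases Nat.eq_zero_or_pos p with h | h
    · subst h
      have : 0 < I * J := Nat.mul_pos (by omega) hJ0
      omega
    · exact h
  have hpp : p * (p - 1) + p = p ^ 2 := by
    obtain ⟨q, rfl⟩ : ∃ q, p = q + 1 := ⟨p - 1, by omega⟩
    simp only [Nat.add_sub_cancel]
    ring
  obtain ⟨ν, hν⟩ : ∃ ν, p ^ 2 = I * J + ν := ⟨p ^ 2 - I * J, by omega⟩
  have hpν : p ≤ ν := by omega
  have hνeq : p ^ 2 - I * J = ν := by omega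
  rw [hνeq] at hC
  obtain ⟨D, hD⟩ : ∃ D, I = J + D := ⟨I - J, by omega⟩
  have hD0 : 0 < D := by omega
  have hD2 : D ≤ 2 * J := by omega
  have hIJ : I - J = D := by omega
  rw [hIJ] at hC
  have h1 : 10 ^ 6 * ν ≤ 16 * J ^ 2 := by
    have e1 : D ^ 4 ≤ (2 * J) ^ 4 := Nat.pow_le_pow_left hD2 4
    have e2 : J ^ 2 * (10 ^ 6 * ν) ≤ J ^ 2 * (16 * J ^ 2) := by
      calc J ^ 2 * (10 ^ 6 * ν) = 10 ^ 6 * J ^ 2 * ν := by ring
        _ ≤ D ^ 4 := hC
        _ ≤ (2 * J) ^ 4 := e1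
        _ = J ^ 2 * (16 * J ^ 2) := by ring
    exact Nat.le_of_mul_le_mul_left e2 (by positivity)
  have h1' : 10 ^ 6 * ν ≤ 8 * (J * D) := by
    have e1 : D ^ 3 ≤ (2 * J) ^ 3 := Nat.pow_le_pow_left hD2 3
    have e2 : J ^ 2 * (10 ^ 6 * ν) ≤ J ^ 2 * (8 * (J * D)) := by
      calc J ^ 2 * (10 ^ 6 * ν) = 10 ^ 6 * J ^ 2 * ν := by ring
        _ ≤ D ^ 4 := hC
        _ = D ^ 3 * D := by ring
        _ ≤ (2 * J) ^ 3 * D := Nat.mul_le_mul_right _ e1
        _ = J ^ 2 * (8 * (J * D)) := by ring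
    exact Nat.le_of_mul_le_mul_left e2 (by positivity)
  have h2 : J < p := by
    by_contra hcon
    have e1 : p ^ 2 ≤ J ^ 2 := Nat.pow_le_pow_left (by omega) 2
    have e2 : J * J < I * J := Nat.mul_lt_mul_of_pos_right hJI hJ0
    nlinarith
  have h3 : 62500 ≤ J := by
    have e1 : 10 ^ 6 * J ≤ 16 * J ^ 2 := by
      have : 10 ^ 6 * J ≤ 10 ^ 6 * ν := Nat.mul_le_mul_left _ (by omega)
      omega
    have e2 : J * 10 ^ 6 ≤ J * (16 * J) := by
      calc J * 10 ^ 6 = 10 ^ 6 * J := by ring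
        _ ≤ 16 * J ^ 2 := e1
        _ = J * (16 * J) := by ring
    have e3 := Nat.le_of_mul_le_mul_left e2 hJ0
    omega
  have h5 : D ≤ 3 * (p - J) := by
    obtain ⟨y, hy⟩ : ∃ y, p = J + y := ⟨p - J, by omega⟩
    have hy' : p - J = y := by omega
    rw [hy']
    by_contra hcon
    have e1 : 3 * y < D := by omega
    have e2 : 9 * p ^ 2 = 9 * ((J + D) * J + ν) := by rw [hν, hD]
    rw [hy] at e2
    nlinarith
  have h6p : p ≤ I := by
    by_contra hcon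
    have e1 : I ^ 2 < p ^ 2 := Nat.pow_lt_pow_left (by omega) (by norm_num)
    rw [hν, hD] at e1
    nlinarith
  have h6 : D ≤ 3 * (I - p) := by
    obtain ⟨x, hx⟩ : ∃ x, I = p + x := ⟨I - p, by omega⟩
    have hx' : I - p = x := by omega
    rw [hx']
    by_contra hcon
    have e1 : 3 * x < D := by omega
    have e3 : 3 * p > 3 * J + 2 * D := by omega
    have e4 : (3 * J + 2 * D) ^ 2 < (3 * p) ^ 2 := Nat.pow_lt_pow_left e3 (by norm_num)
    have e5 : (3 * p) ^ 2 = 9 * ((J + D) * J + ν) := by rw [mul_pow, hν, hD]; norm_num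
    rw [e5] at e4
    nlinarith
  have h7 : 5 * p ≤ 9 * J := by
    by_contra hcon
    have e1 : (9 * J) ^ 2 < (5 * p) ^ 2 := Nat.pow_lt_pow_left (by omega) (by norm_num)
    have e2 : (5 * p) ^ 2 = 25 * (I * J + ν) := by rw [mul_pow, hν]; norm_num
    have e3 : I * J ≤ 3 * J * J := Nat.mul_le_mul_right _ hI3
    rw [e2] at e1
    nlinarith
  have h8 : I ≤ 2 * p := by
    by_contra hcon
    have e1 : (2 * p) ^ 2 < I ^ 2 := Nat.pow_lt_pow_left (by omega) (by norm_num)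
    have e2 : (2 * p) ^ 2 = 4 * (I * J + ν) := by rw [mul_pow, hν]; norm_num
    have e3 : I * I ≤ I * (3 * J) := Nat.mul_le_mul_left _ hI3
    rw [e2] at e1
    nlinarith
  refine ⟨by omega, h2, h6p, h8, ?_⟩
  obtain ⟨s, hs⟩ : ∃ s, s = Nat.sqrt (2 * (ν - p)) := ⟨_, rfl⟩
  have hs1 : s * s ≤ 2 * (ν - p) := by rw [hs]; exact Nat.sqrt_le _
  have hs2 : 2 * (ν - p) < (s + 1) ^ 2 := by rw [hs]; exact Nat.lt_succ_sqrt' _
  have hν3 : 62500 < ν := by omega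
  have hs3 : 100 * s ≤ ν := by
    by_contra hcon
    have e1 : ν ^ 2 < (100 * s) ^ 2 := Nat.pow_lt_pow_left (by omega) (by norm_num)
    have e2 : (100 * s) ^ 2 = 10000 * (s * s) := by ring
    have e3 : s * s ≤ 2 * ν := by omega
    have e4 : 62500 * ν ≤ ν * ν := Nat.mul_le_mul_right _ hν3.le
    rw [e2] at e1
    nlinarith
  have hb4 : (s + 3) ^ 2 ≤ 4 * ν := by
    have e3 : s * s ≤ 2 * ν := by omega
    have e4 : (s + 3) ^ 2 = s * s + 6 * s + 9 := by ring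
    omega
  have h9 : 500 * J * (s + 3) ≤ D ^ 2 := by
    by_contra hcon
    have e1 : (D ^ 2) ^ 2 < (500 * J * (s + 3)) ^ 2 := Nat.pow_lt_pow_left (by omega) (by norm_num)
    have e2 : (500 * J * (s + 3)) ^ 2 ≤ 10 ^ 6 * J ^ 2 * ν := by
      calc (500 * J * (s + 3)) ^ 2 = 250000 * J ^ 2 * (s + 3) ^ 2 := by ring
        _ ≤ 250000 * J ^ 2 * (4 * ν) := Nat.mul_le_mul_left _ hb4
        _ = 10 ^ 6 * J ^ 2 * ν := by ring
    have e3 : (D ^ 2) ^ 2 = D ^ 4 := by ring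
    omega
  refine ⟨s + 3, by omega, ?_, ?_⟩
  · have e1 : p * (p - 1) - I * J = ν - p := by omega
    have e2 : s + 3 - 2 = s + 1 := by omega
    rw [e1, e2]
    exact hs2.le
  · obtain ⟨x, hx⟩ : ∃ x, I = p + x := ⟨I - p, by omega⟩
    obtain ⟨y, hy⟩ : ∃ y, p = J + y := ⟨p - J, by omega⟩
    have hx' : I - p = x := by omega
    have hy' : p - J = y := by omega
    rw [hx'] at h6 ⊢
    rw [hy'] at h5 ⊢
    have hxJ : x + J ≤ 3 * J := by omega
    have hyp : y ≤ p := by omega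
    have e1 : 2 * (s + 3) * p * (x + J) ≤ 2 * (s + 3) * p * (3 * J) := Nat.mul_le_mul_left _ hxJ
    have e2 : 3 * (s + 3) * J * y ≤ 3 * (s + 3) * J * p := Nat.mul_le_mul_left _ hyp
    have e3 : (s + 3) * J * (5 * p) ≤ (s + 3) * J * (9 * J) := Nat.mul_le_mul_left _ h7
    have e4 : D * D ≤ (3 * x) * (3 * y) := Nat.mul_le_mul h6 h5
    have e5 : 500 * J * (s + 3) ≤ 9 * (x * y) := by
      calc 500 * J * (s + 3) ≤ D ^ 2 := h9
        _ = D * D := by ring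
        _ ≤ (3 * x) * (3 * y) := e4
        _ = 9 * (x * y) := by ring
    have e6 : J * (500 * J * (s + 3)) ≤ J * (9 * (x * y)) := Nat.mul_le_mul_left _ e5
    have e7 : 0 < (s + 3) * J * J := by positivity
    have e8 : 5 * (2 * (s + 3) * p * (3 * J) + 3 * (s + 3) * J * p) ≤ 81 * ((s + 3) * J * J) := by
      calc 5 * (2 * (s + 3) * p * (3 * J) + 3 * (s + 3) * J * p) = 9 * ((s + 3) * J * (5 * p)) := by ring
        _ ≤ 9 * ((s + 3) * J * (9 * J)) := Nat.mul_le_mul_left _ e3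
        _ = 81 * ((s + 3) * J * J) := by ring
    have e9 : 500 * ((s + 3) * J * J) ≤ 9 * (x * J * y) := by
      calc 500 * ((s + 3) * J * J) = J * (500 * J * (s + 3)) := by ring
        _ ≤ J * (9 * (x * y)) := e6
        _ = 9 * (x * J * y) := by ring
    omega

/-- `H_eq_of_explicit`, from the statement of block G5. When `Assemble.lean` is there, import it
and use `H_eq_of_explicit_of (fun hp hp3 hN hJ hI hI2 hb2 hb hnum =>
H_eq_of_near hp hp3 hN hJ hI hI2 hb2 hb hnum)`. -/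
theorem H_eq_of_explicit_of
    (hG5 : ∀ {p I J b : ℕ}, p.Prime → 3 ≤ p → I * J ≤ p * (p - 1) → J < p → p ≤ I → I ≤ 2 * p →
      2 ≤ b → 2 * (p * (p - 1) - I * J) ≤ (b - 2) ^ 2 →
      2 * b * p * ((I - p) + J) + 3 * b * J * (p - J) < (I - p) * J * (p - J) →
      H I J = I * J)
    {p I J : ℕ} (hp : p.Prime) (hJI : J < I) (hI3 : I ≤ 3 * J)
    (hN : I * J ≤ p * (p - 1))
    (hC : 10 ^ 6 * J ^ 2 * (p ^ 2 - I * J) ≤ (I - J) ^ 4) : H I J = I * J := by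
  obtain ⟨h1, h2, h3, h4, b, h5, h6, h7⟩ := explicit_num hJI hI3 hN hC
  exact hG5 hp h1 hN h2 h3 h4 h5 h6 h7

/-- the explicit criterion -/
theorem H_eq_of_explicit {p I J : ℕ} (hp : p.Prime) (hJI : J < I) (hI3 : I ≤ 3 * J)
    (hN : I * J ≤ p * (p - 1))
    (hC : 10 ^ 6 * J ^ 2 * (p ^ 2 - I * J) ≤ (I - J) ^ 4) : H I J = I * J := by
  obtain ⟨h3, hJ, hI, hI2, b, hb2, hb, hnum⟩ := explicit_num hJI hI3 hN hC
  exact H_eq_of_near hp h3 hN hJ hI hI2 hb2 hb hnum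

end Pool.Agent.Lib.MP_b026a7_co
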