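import Pool.Agent.Lib.MP_b026a7_co.Lin

namespace Pool.Agent.Lib.MP_b026a7_co

open Finset

/-- translates of Golomb rulers -/
theorem G1_shift {A : Finset ℕ} (hA : IsGolomb A) (k : ℕ) : IsGolomb (A.image (· + k)) := by
  intro a ha b hb c hc d hd hab hcd h
  simp only [mem_image] at ha hb hc hd
  obtain ⟨a', ha', rfl⟩ := ha
  obtain ⟨b', hb', rfl⟩ := hb
  obtain ⟨c', hc', rfl⟩ := hc
  obtain ⟨d', hd', rfl⟩ := hd
  have h1 : a' ≠ b' := fun h' => hab (by rw [h'])
  have h2 : c' ≠ d' := fun h' => hcd (by rw [h'])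
  have h3 := hA a' ha' b' hb' c' hc' d' hd' h1 h2 (by
    push_cast at h
    linarith)
  exact ⟨by rw [h3.1], by rw [h3.2]⟩

theorem G1_card {A : Finset ℕ} (k : ℕ) : (A.image (· + k)).card = A.card :=
  card_image_of_injective _ (add_left_injective k)

/-- a regular DGR may be indexed by any finite type and live in `{0,...,IJ-1}` -/
theorem H_eq_of_family {ι : Type} [Fintype ι] {I J : ℕ} (hι : Fintype.card ι = I)
    (A : ι → Finset ℕ) (hcard : ∀ i, (A i).card = J) (hsub : ∀ i, ∀ x ∈ A i, x < I * J)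
    (hgol : ∀ i, IsGolomb (A i)) (hdisj : ∀ i j, i ≠ j → Disjoint (A i) (A j)) :
    H I J = I * J := by
  set e : Fin I ≃ ι := (Fintype.equivFinOfCardEq hι).symm with he
  refine H_eq_of_regular (fun i => (A (e i)).image (· + 1)) ⟨?_, ?_⟩
  · intro i
    refine ⟨?_, ?_, G1_shift (hgol _) 1⟩
    · rw [G1_card, hcard]
    · intro x hx
      simp only [mem_image] at hx
      obtain ⟨y, hy, rfl⟩ := hx
      have := hsub _ y hy
      rw [mem_Icc]
      omega
  · intro i j hij
    rw [disjoint_image (add_left_injective 1)]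
    exact hdisj _ _ fun h => hij (e.injective h)

theorem G1_pow {a b c d : ℕ} (hab : b < a) (hcd : d < c) (h : 2 ^ a + 2 ^ d = 2 ^ c + 2 ^ b) :
    a = c ∧ b = d := by
  have key : ∀ {a b c d : ℕ}, b < a → d < c → 2 ^ a + 2 ^ d = 2 ^ c + 2 ^ b → ¬ b < d := by
    intro a b c d hab hcd h hbd
    have h1 : 2 ^ (b + 1) ∣ 2 ^ a + 2 ^ d :=
      dvd_add (pow_dvd_pow 2 hab) (pow_dvd_pow 2 hbd)
    rw [h] at h1
    have h2 : 2 ^ (b + 1) ∣ 2 ^ c := pow_dvd_pow 2 (by omega)
    have h3 : 2 ^ (b + 1) ∣ 2 ^ b := (Nat.dvd_add_right h2).1 h1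
    have h4 := Nat.le_of_dvd (by positivity) h3
    rw [pow_succ] at h4
    have h5 : 0 < 2 ^ b := by positivity
    omega
  have h1 : ¬ b < d := key hab hcd h
  have h2 : ¬ d < b := key hcd hab h.symm
  have h3 : b = d := by omega
  subst h3
  have h4 : 2 ^ a = 2 ^ c := by omega
  exact ⟨Nat.pow_right_injective le_rfl h4, rfl⟩

theorem G1_pow_int {a b c d : ℕ} (hab : a ≠ b) (hcd : c ≠ d)
    (h : (2 : ℤ) ^ a - 2 ^ b = 2 ^ c - 2 ^ d) : a = c ∧ b = d := by
  have hn : 2 ^ a + 2 ^ d = 2 ^ c + 2 ^ b := by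
    have : (2 : ℤ) ^ a + 2 ^ d = 2 ^ c + 2 ^ b := by linarith
    exact_mod_cast this
  rcases lt_or_gt_of_ne hab with h1 | h1
  · have h2 : c < d := by
      by_contra h3
      have h4 : d < c := by omega
      have h5 : 2 ^ a < 2 ^ b := Nat.pow_lt_pow_right (by norm_num) h1
      have h6 : 2 ^ d < 2 ^ c := Nat.pow_lt_pow_right (by norm_num) h4
      omega
    have h3 := G1_pow h1 h2 (by omega : 2 ^ b + 2 ^ c = 2 ^ d + 2 ^ a)
    exact ⟨h3.2, h3.1⟩
  · have h2 : d < c := by
      by_contra h3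
      have h4 : c < d := by omega
      have h5 : 2 ^ b < 2 ^ a := Nat.pow_lt_pow_right (by norm_num) h1
      have h6 : 2 ^ c < 2 ^ d := Nat.pow_lt_pow_right (by norm_num) h4
      omega
    exact G1_pow h1 h2 hn

/-- there is always some DGR -/
theorem exists_dgr (I J : ℕ) : ∃ n : ℕ, ∃ A : Fin I → Finset ℕ, IsDGR I J n A := by
  refine ⟨I * 2 ^ J + I, fun i => (range J).image (fun j => I * 2 ^ j + i + 1), ?_, ?_⟩
  · intro i
    have hI : 0 < I := i.pos
    refine ⟨?_, ?_, ?_⟩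
    · rw [card_image_of_injOn, card_range]
      intro j _ k _ hjk
      have h1 : I * 2 ^ j = I * 2 ^ k := by
        have : I * 2 ^ j + (i : ℕ) + 1 = I * 2 ^ k + i + 1 := hjk
        omega
      exact Nat.pow_right_injective le_rfl (Nat.eq_of_mul_eq_mul_left hI h1)
    · intro x hx
      simp only [mem_image, mem_range] at hx
      obtain ⟨j, hj, rfl⟩ := hx
      have h1 : I * 2 ^ j ≤ I * 2 ^ J :=
        Nat.mul_le_mul_left _ (Nat.pow_le_pow_right (by norm_num) hj.le)
      have h2 := i.2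
      rw [mem_Icc]
      omega
    · intro a ha b hb c hc d hd hab hcd h
      simp only [mem_image, mem_range] at ha hb hc hd
      obtain ⟨a', ha', rfl⟩ := ha
      obtain ⟨b', hb', rfl⟩ := hb
      obtain ⟨c', hc', rfl⟩ := hc
      obtain ⟨d', hd', rfl⟩ := hd
      have h1 : a' ≠ b' := fun h' => hab (by rw [h'])
      have h2 : c' ≠ d' := fun h' => hcd (by rw [h'])
      have hIz : (I : ℤ) ≠ 0 := by exact_mod_cast hI.ne'
      have h3 : (2 : ℤ) ^ a' - 2 ^ b' = 2 ^ c' - 2 ^ d' := by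
        apply mul_left_cancel₀ hIz
        push_cast at h
        linarith
      obtain ⟨rfl, rfl⟩ := G1_pow_int h1 h2 h3
      exact ⟨rfl, rfl⟩
  · intro i i' hii
    rw [disjoint_left]
    intro x hx hx'
    simp only [mem_image, mem_range] at hx hx'
    obtain ⟨j, hj, rfl⟩ := hx
    obtain ⟨k, hk, h⟩ := hx'
    have h0 : I * 2 ^ k + (i' : ℕ) = I * 2 ^ j + i := by omega
    have h1 : (I * 2 ^ k + (i' : ℕ)) % I = (I * 2 ^ j + i) % I := by rw [h0]
    rw [Nat.mul_add_mod, Nat.mul_add_mod, Nat.mod_eq_of_lt i.2, Nat.mod_eq_of_lt i'.2] at h1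
    exact hii (Fin.ext h1.symm)

theorem exists_regular_of_H_eq {I J : ℕ} (h : H I J = I * J) :
    ∃ A : Fin I → Finset ℕ, IsDGR I J (I * J) A := by
  have h1 : {n : ℕ | ∃ A : Fin I → Finset ℕ, IsDGR I J n A}.Nonempty := by
    obtain ⟨n, hn⟩ := exists_dgr I J
    exact ⟨n, hn⟩
  have h2 := Nat.sInf_mem h1
  rw [← h]
  exact h2

/-- concatenation -/
theorem H_eq_add {a b J : ℕ} (ha : H a J = a * J) (hb : H b J = b * J) :
    H (a + b) J = (a + b) * J := by
  obtain ⟨A, hA⟩ := exists_regular_of_H_eq ha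
  obtain ⟨B, hB⟩ := exists_regular_of_H_eq hb
  have hAB : ∀ i j, Disjoint (A i) ((B j).image (· + a * J)) := by
    intro i j
    rw [disjoint_left]
    intro x hx hx'
    simp only [mem_image] at hx'
    obtain ⟨y, hy, rfl⟩ := hx'
    have h1 := (hA.1 i).2.1 hx
    have h2 := (hB.1 j).2.1 hy
    rw [mem_Icc] at h1 h2
    omega
  obtain ⟨C, hC1, hC2⟩ : ∃ C : Fin (a + b) → Finset ℕ, (∀ i, C (Fin.castAdd b i) = A i) ∧
      ∀ i, C (Fin.natAdd a i) = (B i).image (· + a * J) :=
    ⟨fun k => Fin.addCases (motive := fun _ => Finset ℕ) A (fun i => (B i).image (· + a * J)) k,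
      fun i => Fin.addCases_left i, fun i => Fin.addCases_right i⟩
  refine H_eq_of_regular C ⟨?_, ?_⟩
  · intro i
    refine Fin.addCases (fun i => ?_) (fun i => ?_) i
    · rw [hC1]
      refine ⟨(hA.1 i).1, fun x hx => ?_, (hA.1 i).2.2⟩
      have h1 := (hA.1 i).2.1 hx
      rw [mem_Icc] at h1 ⊢
      rw [Nat.add_mul]
      omega
    · rw [hC2]
      refine ⟨?_, fun x hx => ?_, G1_shift (hB.1 i).2.2 _⟩
      · rw [G1_card]
        exact (hB.1 i).1
      · simp only [mem_image] at hx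
        obtain ⟨y, hy, rfl⟩ := hx
        have h1 := (hB.1 i).2.1 hy
        rw [mem_Icc] at h1 ⊢
        rw [Nat.add_mul]
        omega
  · intro i j
    refine Fin.addCases (fun i => ?_) (fun i => ?_) i
    · refine Fin.addCases (fun j => ?_) (fun j => ?_) j
      · intro hij
        rw [hC1, hC1]
        exact hA.2 i j fun h => hij (by rw [h])
      · intro _
        rw [hC1, hC2]
        exact hAB i j
    · refine Fin.addCases (fun j => ?_) (fun j => ?_) j
      · intro _
        rw [hC1, hC2]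
        exact (hAB j i).symm
      · intro hij
        rw [hC2, hC2, disjoint_image (add_left_injective _)]
        exact hB.2 i j fun h => hij (by rw [h])

end Pool.Agent.Lib.MP_b026a7_co
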