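import Pool.Agent.Lib.MP_b026a7_co.Defs

namespace Pool.Agent.Lib.MP_b026a7_co

/-- the core congruence argument with squares modulo an odd prime -/
theorem square_step {p : ℕ} (hp : p.Prime) (hp3 : 3 ≤ p) {r s r' s' : ℕ}
    (hr : r < p) (hs : s < p) (hr' : r' < p) (hrs : r ≠ s)
    (hd : (r : ℤ) - s = (r' : ℤ) - s')
    (hq : (p : ℤ) ∣ ((r : ℤ) ^ 2 - (s : ℤ) ^ 2) - ((r' : ℤ) ^ 2 - (s' : ℤ) ^ 2)) :
    r = r' ∧ s = s' := by
  have hpi : Prime (p : ℤ) := Nat.prime_iff_prime_int.mp hp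
  have h1 : ((r : ℤ) ^ 2 - (s : ℤ) ^ 2) - ((r' : ℤ) ^ 2 - (s' : ℤ) ^ 2)
      = ((r : ℤ) - s) * (2 * ((r : ℤ) - r')) := by
    have h2 : (s' : ℤ) = r' - (r - s) := by linarith
    rw [h2]
    ring
  rw [h1] at hq
  have habs : ∀ a b : ℕ, a < p → b < p → (p : ℤ) ∣ (a : ℤ) - b → a = b := by
    intro a b ha hb hab
    have h3 : (a : ℤ) - b = 0 := by
      apply Int.eq_zero_of_abs_lt_dvd hab
      rw [abs_lt]
      constructor
      · have : (b : ℤ) < p := by exact_mod_cast hb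
        have : (0 : ℤ) ≤ a := by positivity
        linarith
      · have : (a : ℤ) < p := by exact_mod_cast ha
        have : (0 : ℤ) ≤ b := by positivity
        linarith
    have h4 : (a : ℤ) = b := by linarith
    exact_mod_cast h4
  rcases hpi.dvd_or_dvd hq with h | h
  · exact absurd (habs r s hr hs h) hrs
  · rcases hpi.dvd_or_dvd h with h | h
    · exfalso
      have h5 : (p : ℤ) ≤ 2 := Int.le_of_dvd (by norm_num) h
      have h6 : (3 : ℤ) ≤ p := by exact_mod_cast hp3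
      linarith
    · have h7 := habs r r' hr hr' h
      refine ⟨h7, ?_⟩
      subst h7
      have h8 : (s : ℤ) = s' := by linarith
      exact_mod_cast h8

/-- `sqf p r` is congruent to `r ^ 2` modulo `p` and to `r` modulo `2` -/
def sqf (p r : ℕ) : ℕ := if (r ^ 2 % p) % 2 = r % 2 then r ^ 2 % p else r ^ 2 % p + p

theorem sqf_lt {p : ℕ} (hp : 0 < p) (r : ℕ) : sqf p r < 2 * p := by
  unfold sqf
  have := Nat.mod_lt (r ^ 2) hp
  split_ifs <;> omega

theorem sqf_mod_two {p : ℕ} (hodd : p % 2 = 1) (r : ℕ) : sqf p r % 2 = r % 2 := by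
  unfold sqf
  generalize r ^ 2 % p = a
  split_ifs <;> omega

theorem sqf_cong (p r : ℕ) : (p : ℤ) ∣ (sqf p r : ℤ) - (r : ℤ) ^ 2 := by
  have h0 : (p : ℤ) ∣ ((r ^ 2 % p : ℕ) : ℤ) - (r : ℤ) ^ 2 := by
    refine ⟨-((r ^ 2 / p : ℕ) : ℤ), ?_⟩
    have h := Nat.mod_add_div (r ^ 2) p
    have h' : ((r ^ 2 % p : ℕ) : ℤ) + (p : ℤ) * ((r ^ 2 / p : ℕ) : ℤ) = (r : ℤ) ^ 2 := by
      exact_mod_cast h
    linarith
  unfold sqf
  split_ifs
  · exact h0
  · rw [Nat.cast_add]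
    have : ((r ^ 2 % p : ℕ) : ℤ) + (p : ℤ) - (r : ℤ) ^ 2
        = (((r ^ 2 % p : ℕ) : ℤ) - (r : ℤ) ^ 2) + p := by ring
    rw [this]
    exact dvd_add h0 (dvd_refl _)

theorem wrap {I a t : ℕ} (ha : a ≤ I) (ht : t < I) :
    ∃ w : ℤ, (((a + t) % I : ℕ) : ℤ) = a + t - w * I ∧
      ((w = 0 ∧ a + t < I) ∨ (w = 1 ∧ I ≤ a + t)) := by
  by_cases h : a + t < I
  · refine ⟨0, ?_, Or.inl ⟨rfl, h⟩⟩
    rw [Nat.mod_eq_of_lt h]
    push_cast
    ring
  · refine ⟨1, ?_, Or.inr ⟨rfl, by omega⟩⟩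
    have h1 : (a + t) % I = a + t - I := by
      rw [Nat.mod_eq_sub_mod (by omega), Nat.mod_eq_of_lt (by omega)]
    rw [h1, Nat.cast_sub (by omega)]
    push_cast
    ring

/-- every `I ≥ 4 p` is regular for `J ≤ p`, `p` an odd prime -/
theorem H_eq_of_four_mul {I J p : ℕ} (hp : p.Prime) (hp3 : 3 ≤ p) (hJ : J ≤ p)
    (hI : 4 * p ≤ I) : H I J = I * J := by
  have hodd : p % 2 = 1 := by
    rcases hp.eq_two_or_odd with h | h
    · omega
    · exact h
  apply rows_regular (by omega) (sqf p)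
  intro t ht r hr s hs r' hr' s' hs' hrs hrs' h
  have hlt : ∀ a, sqf p a < 2 * p := sqf_lt (by omega)
  obtain ⟨w1, e1, c1⟩ := wrap (le_trans (hlt r).le (by omega)) ht
  obtain ⟨w2, e2, c2⟩ := wrap (le_trans (hlt s).le (by omega)) ht
  obtain ⟨w3, e3, c3⟩ := wrap (le_trans (hlt r').le (by omega)) ht
  obtain ⟨w4, e4, c4⟩ := wrap (le_trans (hlt s').le (by omega)) ht
  rw [e1, e2, e3, e4] at h
  have hb1 := hlt r
  have hb2 := hlt s
  have hb3 := hlt r'
  have hb4 := hlt s'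
  have hm1 := sqf_mod_two hodd r
  have hm2 := sqf_mod_two hodd s
  have hm3 := sqf_mod_two hodd r'
  have hm4 := sqf_mod_two hodd s'
  obtain ⟨k1, hk1⟩ := sqf_cong p r
  obtain ⟨k2, hk2⟩ := sqf_cong p s
  obtain ⟨k3, hk3⟩ := sqf_cong p r'
  obtain ⟨k4, hk4⟩ := sqf_cong p s'
  generalize sqf p r = f1 at *
  generalize sqf p s = f2 at *
  generalize sqf p r' = f3 at *
  generalize sqf p s' = f4 at *
  have hK : ((((r : ℤ) - s) - (r' - s')) - (w1 - w2 - w3 + w4)) * I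
      = -((f1 : ℤ) - f2 - f3 + f4) := by linarith
  have hK0 : (((r : ℤ) - s) - (r' - s')) - (w1 - w2 - w3 + w4) = 0 := by
    by_contra hne
    have h1 : (1 : ℤ) ≤ |(((r : ℤ) - s) - (r' - s')) - (w1 - w2 - w3 + w4)| :=
      Int.one_le_abs hne
    have h2 : |((((r : ℤ) - s) - (r' - s')) - (w1 - w2 - w3 + w4)) * I|
        = |(((r : ℤ) - s) - (r' - s')) - (w1 - w2 - w3 + w4)| * I := by
      rw [abs_mul, abs_of_nonneg (by positivity : (0 : ℤ) ≤ (I : ℤ))]
    have h3 : |-((f1 : ℤ) - f2 - f3 + f4)| < I := by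
      rw [abs_lt]
      constructor <;> omega
    rw [hK] at h2
    have h4 : (I : ℤ) ≤ |(((r : ℤ) - s) - (r' - s')) - (w1 - w2 - w3 + w4)| * I := by
      nlinarith
    linarith
  have hB : (f1 : ℤ) - f2 - f3 + f4 = 0 := by
    rw [hK0] at hK
    linarith
  have hd : (r : ℤ) - s = (r' : ℤ) - s' := by
    rcases c1 with ⟨rfl, c1⟩ | ⟨rfl, c1⟩ <;> rcases c2 with ⟨rfl, c2⟩ | ⟨rfl, c2⟩ <;>
      rcases c3 with ⟨rfl, c3⟩ | ⟨rfl, c3⟩ <;> rcases c4 with ⟨rfl, c4⟩ | ⟨rfl, c4⟩ <;>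
      omega
  refine square_step hp hp3 (by omega) (by omega) (by omega) hrs hd ?_
  refine ⟨-(k1 - k2 - k3 + k4), ?_⟩
  have : ((r : ℤ) ^ 2 - (s : ℤ) ^ 2) - ((r' : ℤ) ^ 2 - (s' : ℤ) ^ 2)
      = ((f1 : ℤ) - f2 - f3 + f4) - (((f1 : ℤ) - (r : ℤ) ^ 2) - ((f2 : ℤ) - (s : ℤ) ^ 2)
        - ((f3 : ℤ) - (r' : ℤ) ^ 2) + ((f4 : ℤ) - (s' : ℤ) ^ 2)) := by ring
  rw [this, hB, hk1, hk2, hk3, hk4]
  ring

/-- every multiple `m p`, `m ≥ 2` prime to `p`, is regular for `J ≤ p`, `p` an odd prime -/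
theorem H_eq_of_mul_coprime {J p m : ℕ} (hp : p.Prime) (hp3 : 3 ≤ p) (hJ : J ≤ p)
    (hm : 2 ≤ m) (hcop : Nat.Coprime p m) : H (m * p) J = m * p * J := by
  have hI : 1 ≤ m * p := Nat.mul_pos (by omega) hp.pos
  apply rows_regular hI (fun r => (Nat.chineseRemainder hcop (r ^ 2) r : ℕ))
  intro t ht r hr s hs r' hr' s' hs' hrs hrs' h
  have hc : ∀ a : ℕ, ∃ k l : ℤ, (((Nat.chineseRemainder hcop (a ^ 2) a : ℕ) + t) % (m * p) : ℕ)
      = (a : ℤ) ^ 2 + t + p * k ∧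
      (((Nat.chineseRemainder hcop (a ^ 2) a : ℕ) + t) % (m * p) : ℕ) = (a : ℤ) + t + m * l := by
    intro a
    have h1 := (Nat.chineseRemainder hcop (a ^ 2) a).2.1
    have h2 := (Nat.chineseRemainder hcop (a ^ 2) a).2.2
    generalize (Nat.chineseRemainder hcop (a ^ 2) a : ℕ) = f at *
    have h3 : (f + t) % (m * p) ≡ a ^ 2 + t [MOD p] :=
      ((Nat.mod_modEq (f + t) (m * p)).of_mul_left m).trans (Nat.ModEq.add_right t h1)
    have h4 : (f + t) % (m * p) ≡ a + t [MOD m] :=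
      ((Nat.mod_modEq (f + t) (m * p)).of_mul_right p).trans (Nat.ModEq.add_right t h2)
    have h5 := (Nat.modEq_iff_dvd.mp h3.symm)
    have h6 := (Nat.modEq_iff_dvd.mp h4.symm)
    obtain ⟨k, hk⟩ := h5
    obtain ⟨l, hl⟩ := h6
    refine ⟨k, l, ?_, ?_⟩
    · push_cast at hk ⊢
      linarith
    · push_cast at hl ⊢
      linarith
  have hu : ∀ a : ℕ, ((Nat.chineseRemainder hcop (a ^ 2) a : ℕ) + t) % (m * p) < m * p :=
    fun a => Nat.mod_lt _ hI
  obtain ⟨k1, l1, e1, g1⟩ := hc r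
  obtain ⟨k2, l2, e2, g2⟩ := hc s
  obtain ⟨k3, l3, e3, g3⟩ := hc r'
  obtain ⟨k4, l4, e4, g4⟩ := hc s'
  have b1 := hu r
  have b2 := hu s
  have b3 := hu r'
  have b4 := hu s'
  generalize ((Nat.chineseRemainder hcop (r ^ 2) r : ℕ) + t) % (m * p) = u1 at *
  generalize ((Nat.chineseRemainder hcop (s ^ 2) s : ℕ) + t) % (m * p) = u2 at *
  generalize ((Nat.chineseRemainder hcop (r' ^ 2) r' : ℕ) + t) % (m * p) = u3 at *
  generalize ((Nat.chineseRemainder hcop (s' ^ 2) s' : ℕ) + t) % (m * p) = u4 at *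
  have hK : (((r : ℤ) - s) - (r' - s')) * ((m * p : ℕ) : ℤ) = -((u1 : ℤ) - u2 - u3 + u4) := by
    linarith
  have hlt : |((r : ℤ) - s) - (r' - s')| < 2 := by
    by_contra hne
    push Not at hne
    have h2 : |(((r : ℤ) - s) - (r' - s')) * ((m * p : ℕ) : ℤ)|
        = |((r : ℤ) - s) - (r' - s')| * ((m * p : ℕ) : ℤ) := by
      rw [abs_mul, abs_of_nonneg (by positivity : (0 : ℤ) ≤ ((m * p : ℕ) : ℤ))]
    have h3 : |-((u1 : ℤ) - u2 - u3 + u4)| < 2 * ((m * p : ℕ) : ℤ) := by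
      rw [abs_lt]
      constructor <;> omega
    rw [hK] at h2
    have h4 : (2 : ℤ) * ((m * p : ℕ) : ℤ) ≤ |((r : ℤ) - s) - (r' - s')| * ((m * p : ℕ) : ℤ) := by
      have : (0 : ℤ) ≤ ((m * p : ℕ) : ℤ) := by positivity
      nlinarith
    linarith
  have hdvd : (m : ℤ) ∣ ((r : ℤ) - s) - (r' - s') := by
    refine ⟨-(p * (((r : ℤ) - s) - (r' - s'))) - (l1 - l2 - l3 + l4), ?_⟩
    rw [g1, g2, g3, g4] at hK
    push_cast at hK
    linarith
  have hd0 : ((r : ℤ) - s) - (r' - s') = 0 := by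
    apply Int.eq_zero_of_abs_lt_dvd hdvd
    have : (2 : ℤ) ≤ m := by exact_mod_cast hm
    linarith
  have hu0 : (u1 : ℤ) - u2 - u3 + u4 = 0 := by
    rw [hd0] at hK
    linarith
  refine square_step hp hp3 (by omega) (by omega) (by omega) hrs (by linarith) ?_
  refine ⟨-(k1 - k2 - k3 + k4), ?_⟩
  rw [e1, e2, e3, e4] at hu0
  linarith

theorem H_eq_of_mul {J p m : ℕ} (hp : p.Prime) (hp5 : 5 ≤ p) (hJ : J ≤ p)
    (hm : 2 ≤ m) : H (m * p) J = m * p * J := by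
  by_cases h : p ∣ m
  · have : p ≤ m := Nat.le_of_dvd (by omega) h
    exact H_eq_of_four_mul hp (by omega) hJ (Nat.mul_le_mul_right _ (by omega))
  · exact H_eq_of_mul_coprime hp (by omega) hJ hm ((Nat.Prime.coprime_iff_not_dvd hp).mpr h)

/-- every `I ≥ 8 J` is regular -/
theorem H_eq_of_eight_mul {I J : ℕ} (hJ : 1 ≤ J) (hI : 8 * J ≤ I) : H I J = I * J := by
  rcases Nat.lt_or_ge 1 J with h1 | h1
  · obtain ⟨p, hp, h2, h3⟩ := Nat.exists_prime_lt_and_le_two_mul J (by omega)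
    exact H_eq_of_four_mul hp (by omega) h2.le (by omega)
  · have hJ1 : J = 1 := le_antisymm h1 hJ
    subst hJ1
    apply rows_regular (by omega) (fun _ => 0)
    intro t _ r hr s hs r' hr' s' hs' hrs
    omega

/-- Ruzsa's set modulo `p (p - 1)` -/
theorem ruzsa {p : ℕ} (hp : p.Prime) (hp3 : 3 ≤ p) :
    ∃ x : ℕ → ℕ, (∀ i < p - 1, x i % (p - 1) = i) ∧ (∀ i, x i < p * (p - 1)) ∧
      ∀ i < p - 1, ∀ j < p - 1, ∀ k < p - 1, ∀ l < p - 1, i ≠ j →
        ((p * (p - 1) : ℕ) : ℤ) ∣ ((x i : ℤ) - x j) - ((x k : ℤ) - x l) → i = k ∧ j = l := by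
  have : Fact p.Prime := ⟨hp⟩
  obtain ⟨g, hg⟩ := IsCyclic.exists_generator (α := (ZMod p)ˣ)
  have hord : orderOf g = p - 1 := by
    rw [orderOf_eq_card_of_forall_mem_zpowers hg, Nat.card_eq_fintype_card, ZMod.card_units p]
  have hcop : Nat.Coprime (p - 1) p := by
    have h := Nat.coprime_self_add_left (m := 1) (n := p - 1)
    rw [Nat.coprime_comm]
    have : p = (p - 1) + 1 := by omega
    rw [this]
    simp
  have hpos : 0 < p * (p - 1) := Nat.mul_pos hp.pos (by omega)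
  let v : ℕ → ℕ := fun i => ((g ^ i : (ZMod p)ˣ) : ZMod p).val
  let x : ℕ → ℕ := fun i => (Nat.chineseRemainder hcop i (v i) : ℕ) % (p * (p - 1))
  have hx1 : ∀ i, x i ≡ i [MOD (p - 1)] := by
    intro i
    have h1 := (Nat.chineseRemainder hcop i (v i)).2.1
    exact ((Nat.mod_modEq _ (p * (p - 1))).of_mul_left p).trans h1
  have hx2 : ∀ i, x i ≡ v i [MOD p] := by
    intro i
    have h1 := (Nat.chineseRemainder hcop i (v i)).2.2
    exact ((Nat.mod_modEq _ (p * (p - 1))).of_mul_right (p - 1)).trans h1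
  have hx3 : ∀ i, (x i : ZMod p) = ((g ^ i : (ZMod p)ˣ) : ZMod p) := by
    intro i
    have h1 := (ZMod.natCast_eq_natCast_iff (x i) (v i) p).mpr (hx2 i)
    rw [h1]
    exact ZMod.natCast_zmod_val _
  refine ⟨x, ?_, ?_, ?_⟩
  · intro i hi
    have := hx1 i
    unfold Nat.ModEq at this
    rw [this, Nat.mod_eq_of_lt hi]
  · intro i
    exact Nat.mod_lt _ hpos
  · intro i hi j hj k hk l hl hij h
    have hinj : ∀ a < p - 1, ∀ b < p - 1,
        ((g ^ a : (ZMod p)ˣ) : ZMod p) = ((g ^ b : (ZMod p)ˣ) : ZMod p) → a = b := by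
      intro a ha b hb hab
      have h1 : g ^ a = g ^ b := Units.ext hab
      have h2 := (pow_inj_mod (x := g) (n := a) (m := b)).mp h1
      rw [hord, Nat.mod_eq_of_lt ha, Nat.mod_eq_of_lt hb] at h2
      exact h2
    -- the relation modulo p - 1
    have h1 : ((p - 1 : ℕ) : ℤ) ∣ ((i : ℤ) - j) - ((k : ℤ) - l) := by
      have h2 : ((p - 1 : ℕ) : ℤ) ∣ ((x i : ℤ) - x j) - ((x k : ℤ) - x l) :=
        dvd_trans (by rw [Nat.cast_mul]; exact dvd_mul_left _ _) h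
      have e : ∀ a, ((p - 1 : ℕ) : ℤ) ∣ (x a : ℤ) - a := fun a =>
        Nat.modEq_iff_dvd.mp (hx1 a).symm
      have h3 := dvd_sub h2 (dvd_sub (dvd_sub (e i) (e j)) (dvd_sub (e k) (e l)))
      have h4 : ((x i : ℤ) - x j) - ((x k : ℤ) - x l)
          - (((x i : ℤ) - i) - ((x j : ℤ) - j) - (((x k : ℤ) - k) - ((x l : ℤ) - l)))
          = ((i : ℤ) - j) - ((k : ℤ) - l) := by ring
      rw [h4] at h3
      exact h3
    have h1' : j + k ≡ i + l [MOD (p - 1)] := by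
      rw [Nat.modEq_iff_dvd]
      push_cast
      have : ((i : ℤ) + l) - (j + k) = ((i : ℤ) - j) - ((k : ℤ) - l) := by ring
      rw [this]
      exact_mod_cast h1
    have h5 : g ^ (j + k) = g ^ (i + l) := by
      rw [pow_inj_mod, hord]
      exact h1'
    have h6 : ((g ^ j : (ZMod p)ˣ) : ZMod p) * ((g ^ k : (ZMod p)ˣ) : ZMod p)
        = ((g ^ i : (ZMod p)ˣ) : ZMod p) * ((g ^ l : (ZMod p)ˣ) : ZMod p) := by
      rw [← Units.val_mul, ← Units.val_mul, ← pow_add, ← pow_add, h5]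
    -- the relation modulo p
    have h7 : ((g ^ i : (ZMod p)ˣ) : ZMod p) - ((g ^ j : (ZMod p)ˣ) : ZMod p)
        - (((g ^ k : (ZMod p)ˣ) : ZMod p) - ((g ^ l : (ZMod p)ˣ) : ZMod p)) = 0 := by
      rw [← hx3, ← hx3, ← hx3, ← hx3]
      have h2 : (p : ℤ) ∣ ((x i : ℤ) - x j) - ((x k : ℤ) - x l) :=
        dvd_trans (by rw [Nat.cast_mul]; exact dvd_mul_right _ _) h
      have h3 := (ZMod.intCast_zmod_eq_zero_iff_dvd
        (((x i : ℤ) - x j) - ((x k : ℤ) - x l)) p).mpr h2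
      push_cast at h3
      exact h3
    have hij' : ((g ^ i : (ZMod p)ˣ) : ZMod p) ≠ ((g ^ j : (ZMod p)ˣ) : ZMod p) := by
      intro hc
      exact hij (hinj i hi j hj hc)
    have hinj_ik := hinj i hi k hk
    have hinj_jl := hinj j hj l hl
    generalize ((g ^ i : (ZMod p)ˣ) : ZMod p) = a at *
    generalize ((g ^ j : (ZMod p)ˣ) : ZMod p) = b at *
    generalize ((g ^ k : (ZMod p)ˣ) : ZMod p) = c at *
    generalize ((g ^ l : (ZMod p)ˣ) : ZMod p) = d at *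
    have h8 : (a - b) * (c - a) = 0 := by
      have hd : d = c - a + b := by linear_combination h7
      rw [hd] at h6
      linear_combination -h6
    rcases mul_eq_zero.mp h8 with h9 | h9
    · exact absurd (sub_eq_zero.mp h9) hij'
    · have hca : c = a := sub_eq_zero.mp h9
      have hdb : d = b := by
        have : d = c - a + b := by linear_combination h7
        rw [this, hca]
        ring
      exact ⟨hinj_ik hca.symm, hinj_jl hdb.symm⟩

theorem H_eq_pred_prime {I p : ℕ} (hp : p.Prime) (hI : I = p ∨ 2 * p ≤ I) :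
    H I (p - 1) = I * (p - 1) := by
  have hp2 := hp.two_le
  rcases Nat.lt_or_ge 2 p with h2 | h2
  · obtain ⟨x, hx1, hx2, hx3⟩ := ruzsa hp h2
    apply cols_regular (by omega) (by omega) x hx1
    intro i hi j hj k hk l hl hij _ h
    apply hx3 i hi j hj k hk l hl hij
    rcases hI with rfl | hI
    · exact h
    · have h3 : ((x i : ℤ) - x j) - ((x k : ℤ) - x l) = 0 := by
        apply Int.eq_zero_of_abs_lt_dvd h
        have hle : 2 * (p * (p - 1)) ≤ I * (p - 1) := by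
          rw [← mul_assoc]
          exact Nat.mul_le_mul_right _ hI
        have a1 := hx2 i
        have a2 := hx2 j
        have a3 := hx2 k
        have a4 := hx2 l
        rw [abs_lt]
        constructor <;> omega
      rw [h3]
      exact dvd_zero _
  · have hp' : p = 2 := le_antisymm h2 hp2
    subst hp'
    apply rows_regular (by omega) (fun _ => 0)
    intro t _ r hr s hs r' hr' s' hs' hrs
    omega

end Pool.Agent.Lib.MP_b026a7_co
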