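import Pool.Agent.Lib.MP_b026a7_co.Family

namespace Pool.Agent.Lib.MP_b026a7_co

open Finset

private theorem lower_count {n u a b : ℕ} (ha : 1 ≤ a) (han : a ≤ n) (hb : 1 ≤ b) (hbn : b ≤ n) :
    ∑ t ∈ range (n + u - 1), (if a ≤ t + 1 ∧ t + 2 ≤ a + u then 1 else 0)
      * (if b ≤ t + 1 ∧ t + 2 ≤ b + u then 1 else 0) = u - ((a - b) + (b - a)) := by
  have h1 : ∀ t, (if a ≤ t + 1 ∧ t + 2 ≤ a + u then 1 else 0)
      * (if b ≤ t + 1 ∧ t + 2 ≤ b + u then 1 else 0)
      = if (max a b ≤ t + 1 ∧ t + 2 ≤ min a b + u) then 1 else 0 := by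
    intro t
    by_cases h : (max a b ≤ t + 1 ∧ t + 2 ≤ min a b + u)
    · rw [if_pos h, if_pos (by omega), if_pos (by omega)]
    · rw [if_neg h]
      by_cases h2 : a ≤ t + 1 ∧ t + 2 ≤ a + u
      · rw [if_neg (c := b ≤ t + 1 ∧ t + 2 ≤ b + u) (by omega), mul_zero]
      · rw [if_neg h2, zero_mul]
  rw [sum_congr rfl fun t _ => h1 t, ← card_filter]
  have h2 : (range (n + u - 1)).filter (fun t => max a b ≤ t + 1 ∧ t + 2 ≤ min a b + u)
      = Ico (max a b - 1) (min a b + u - 1) := by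
    ext t
    simp only [mem_filter, mem_range, mem_Ico]
    omega
  rw [h2, Nat.card_Ico]
  omega

private theorem lower_sum_pairs {A : Finset ℕ} (hA : IsGolomb A) (u : ℕ) :
    2 * ∑ p ∈ (A ×ˢ A).filter (fun p => p.2 < p.1), (u - (p.1 - p.2)) ≤ u * (u - 1) := by
  have h1 : ∑ p ∈ (A ×ˢ A).filter (fun p => p.2 < p.1), (u - (p.1 - p.2))
      = ∑ p ∈ ((A ×ˢ A).filter (fun p => p.2 < p.1)).filter (fun p => p.1 - p.2 < u),
        (u - (p.1 - p.2)) := by
    symm
    apply sum_subset (filter_subset _ _)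
    intro p hp hp2
    rw [mem_filter, not_and] at hp2
    have := hp2 hp
    omega
  have h2 : ∑ p ∈ ((A ×ˢ A).filter (fun p => p.2 < p.1)).filter (fun p => p.1 - p.2 < u),
        (u - (p.1 - p.2)) ≤ ∑ j ∈ range u, j := by
    have hinj : Set.InjOn (fun p : ℕ × ℕ => u - (p.1 - p.2))
        (((A ×ˢ A).filter (fun p => p.2 < p.1)).filter (fun p => p.1 - p.2 < u)
          : Finset (ℕ × ℕ)) := by
      intro p hp q hq hpq
      simp only [coe_filter, mem_filter, mem_product, Set.mem_ofPred_eq] at hp hq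
      obtain ⟨⟨⟨hp1, hp2⟩, hp3⟩, hp4⟩ := hp
      obtain ⟨⟨⟨hq1, hq2⟩, hq3⟩, hq4⟩ := hq
      change u - (p.1 - p.2) = u - (q.1 - q.2) at hpq
      have := hA p.1 hp1 p.2 hp2 q.1 hq1 q.2 hq2 (by omega) (by omega) (by omega)
      exact Prod.ext this.1 this.2
    calc ∑ p ∈ ((A ×ˢ A).filter (fun p => p.2 < p.1)).filter (fun p => p.1 - p.2 < u),
        (u - (p.1 - p.2))
        = ∑ j ∈ (((A ×ˢ A).filter (fun p => p.2 < p.1)).filter
          (fun p => p.1 - p.2 < u)).image (fun p : ℕ × ℕ => u - (p.1 - p.2)), j := by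
          rw [sum_image hinj]
      _ ≤ ∑ j ∈ range u, j := by
          apply sum_le_sum_of_subset
          intro j hj
          simp only [mem_image, mem_filter, mem_product] at hj
          obtain ⟨p, ⟨⟨_, hp3⟩, hp4⟩, rfl⟩ := hj
          rw [mem_range]
          omega
  rw [h1]
  calc 2 * ∑ p ∈ ((A ×ˢ A).filter (fun p => p.2 < p.1)).filter (fun p => p.1 - p.2 < u),
        (u - (p.1 - p.2)) ≤ 2 * ∑ j ∈ range u, j := Nat.mul_le_mul_left _ h2
    _ = u * (u - 1) := by rw [mul_comm, sum_range_id_mul_two]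

private theorem lower_sum_all {A : Finset ℕ} (hA : IsGolomb A) (u : ℕ) :
    ∑ a ∈ A, ∑ b ∈ A, (u - ((a - b) + (b - a))) ≤ u * A.card + u * (u - 1) := by
  rw [← sum_product' (s := A) (t := A) (f := fun a b => u - ((a - b) + (b - a)))]
  rw [← sum_filter_add_sum_filter_not (A ×ˢ A) (fun p => p.2 < p.1)]
  rw [← sum_filter_add_sum_filter_not ((A ×ˢ A).filter (fun p => ¬ p.2 < p.1))
    (fun p => p.1 < p.2)]
  have e1 : ∑ x ∈ (A ×ˢ A).filter (fun p => p.2 < p.1), (u - ((x.1 - x.2) + (x.2 - x.1)))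
      = ∑ p ∈ (A ×ˢ A).filter (fun p => p.2 < p.1), (u - (p.1 - p.2)) := by
    apply sum_congr rfl
    intro x hx
    rw [mem_filter] at hx
    have := hx.2
    congr 1
    omega
  have e2 : ∑ x ∈ ((A ×ˢ A).filter (fun p => ¬ p.2 < p.1)).filter (fun p => p.1 < p.2),
      (u - ((x.1 - x.2) + (x.2 - x.1)))
      = ∑ p ∈ (A ×ˢ A).filter (fun p => p.2 < p.1), (u - (p.1 - p.2)) := by
    apply sum_bij (fun x _ => (x.2, x.1))
    · intro x hx
      simp only [mem_filter, mem_product] at hx ⊢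
      exact ⟨⟨hx.1.1.2, hx.1.1.1⟩, hx.2⟩
    · intro x _ y _ hxy
      rw [Prod.mk.injEq] at hxy
      exact Prod.ext hxy.2 hxy.1
    · intro x hx
      simp only [mem_filter, mem_product] at hx
      refine ⟨(x.2, x.1), ?_, rfl⟩
      simp only [mem_filter, mem_product]
      exact ⟨⟨⟨hx.1.2, hx.1.1⟩, by omega⟩, hx.2⟩
    · intro x hx
      simp only [mem_filter, mem_product] at hx
      have := hx.2
      change u - ((x.1 - x.2) + (x.2 - x.1)) = u - (x.2 - x.1)
      congr 1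
      omega
  have e3 : ∑ x ∈ ((A ×ˢ A).filter (fun p => ¬ p.2 < p.1)).filter (fun p => ¬ p.1 < p.2),
      (u - ((x.1 - x.2) + (x.2 - x.1))) ≤ u * A.card := by
    have h1 : ((A ×ˢ A).filter (fun p => ¬ p.2 < p.1)).filter (fun p => ¬ p.1 < p.2)
        ⊆ A.image (fun a => (a, a)) := by
      intro x hx
      simp only [mem_filter, mem_product] at hx
      rw [mem_image]
      refine ⟨x.1, hx.1.1.1, ?_⟩
      apply Prod.ext
      · rfl
      · change x.1 = x.2
        omega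
    calc ∑ x ∈ ((A ×ˢ A).filter (fun p => ¬ p.2 < p.1)).filter (fun p => ¬ p.1 < p.2),
          (u - ((x.1 - x.2) + (x.2 - x.1)))
        ≤ ∑ x ∈ ((A ×ˢ A).filter (fun p => ¬ p.2 < p.1)).filter (fun p => ¬ p.1 < p.2), u :=
          sum_le_sum fun x _ => Nat.sub_le _ _
      _ = (((A ×ˢ A).filter (fun p => ¬ p.2 < p.1)).filter (fun p => ¬ p.1 < p.2)).card * u := by
          rw [sum_const, smul_eq_mul]
      _ ≤ A.card * u := by
          apply Nat.mul_le_mul_right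
          exact (card_le_card h1).trans card_image_le
      _ = u * A.card := mul_comm _ _
  have e4 := lower_sum_pairs hA u
  omega

theorem golomb_windows {A : Finset ℕ} (hA : IsGolomb A) {n u : ℕ} (hu : 1 ≤ u)
    (hsub : A ⊆ Finset.Icc 1 n) :
    u * A.card ^ 2 ≤ (n + u - 1) * (u - 1 + A.card) := by
  have hmem : ∀ a ∈ A, 1 ≤ a ∧ a ≤ n := fun a ha => by
    have := hsub ha
    rwa [mem_Icc] at this
  have s1 : ∑ t ∈ range (n + u - 1), ∑ a ∈ A, (if a ≤ t + 1 ∧ t + 2 ≤ a + u then 1 else 0)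
      = u * A.card := by
    rw [sum_comm]
    have h1 : ∀ a ∈ A, ∑ t ∈ range (n + u - 1), (if a ≤ t + 1 ∧ t + 2 ≤ a + u then 1 else 0)
        = u := by
      intro a ha
      have h2 := lower_count (u := u) (hmem a ha).1 (hmem a ha).2 (hmem a ha).1 (hmem a ha).2
      rw [show u - ((a - a) + (a - a)) = u by omega] at h2
      refine Eq.trans ?_ h2
      apply sum_congr rfl
      intro t _
      split_ifs <;> rfl
    rw [sum_congr rfl h1, sum_const, smul_eq_mul, mul_comm]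
  have s2 : ∑ t ∈ range (n + u - 1),
      (∑ a ∈ A, (if a ≤ t + 1 ∧ t + 2 ≤ a + u then 1 else 0)) ^ 2
      ≤ u * A.card + u * (u - 1) := by
    have h1 : ∑ t ∈ range (n + u - 1),
        (∑ a ∈ A, (if a ≤ t + 1 ∧ t + 2 ≤ a + u then 1 else 0)) ^ 2
        = ∑ a ∈ A, ∑ b ∈ A, (u - ((a - b) + (b - a))) := by
      have h2 : ∀ t, (∑ a ∈ A, (if a ≤ t + 1 ∧ t + 2 ≤ a + u then 1 else 0)) ^ 2
          = ∑ a ∈ A, ∑ b ∈ A, (if a ≤ t + 1 ∧ t + 2 ≤ a + u then 1 else 0)
            * (if b ≤ t + 1 ∧ t + 2 ≤ b + u then 1 else 0) := by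
        intro t
        rw [sq, sum_mul_sum]
      rw [sum_congr rfl fun t _ => h2 t, sum_comm]
      apply sum_congr rfl
      intro a ha
      rw [sum_comm]
      apply sum_congr rfl
      intro b hb
      exact lower_count (hmem a ha).1 (hmem a ha).2 (hmem b hb).1 (hmem b hb).2
    rw [h1]
    exact lower_sum_all hA u
  have cs := sq_sum_le_card_mul_sum_sq (s := range (n + u - 1))
    (f := fun t => ∑ a ∈ A, (if a ≤ t + 1 ∧ t + 2 ≤ a + u then 1 else 0))
  rw [s1, card_range] at cs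
  have h3 : (u * A.card) ^ 2 ≤ (n + u - 1) * (u * A.card + u * (u - 1)) :=
    cs.trans (Nat.mul_le_mul_left _ s2)
  have h4 : u * (u * A.card ^ 2) ≤ u * ((n + u - 1) * (u - 1 + A.card)) := by
    calc u * (u * A.card ^ 2) = (u * A.card) ^ 2 := by ring
      _ ≤ (n + u - 1) * (u * A.card + u * (u - 1)) := h3
      _ = u * ((n + u - 1) * (u - 1 + A.card)) := by ring
  exact Nat.le_of_mul_le_mul_left h4 hu

theorem H_gt_of_small (ε : ℝ) (hε : 0 < ε) :
    ∃ J₀ : ℕ, ∀ J ≥ J₀, ∀ I : ℕ, 1 ≤ I → (I : ℝ) ≤ (1 - ε) * J → I * J < H I J := by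
  obtain ⟨K, hK⟩ := exists_nat_ge (4 / ε)
  refine ⟨K * (K + 1) + 1, fun J hJ I hI hIJ => ?_⟩
  have hle : I * J ≤ H I J := by
    obtain ⟨B, hB⟩ := Nat.sInf_mem (exists_dgr I J)
    exact dgr_le hB
  refine lt_of_le_of_ne hle fun h => ?_
  obtain ⟨A, hA⟩ := exists_regular_of_H_eq h.symm
  obtain ⟨hc, hs, hg⟩ := hA.1 ⟨0, hI⟩
  have hKpos : 1 ≤ K := by
    rw [Nat.one_le_iff_ne_zero]
    rintro rfl
    have : 0 < 4 / ε := by positivity
    simp only [Nat.cast_zero] at hK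
    linarith
  have hJpos : 1 ≤ J := by omega
  have hu : 1 ≤ K * J := Nat.mul_pos hKpos hJpos
  have hw := golomb_windows hg hu hs
  rw [hc] at hw
  have h1 : K * J * J ^ 2 ≤ (I * J + K * J) * (K * J + J) := by
    refine hw.trans ?_
    apply Nat.mul_le_mul
    · omega
    · omega
  have h2 : K * J ≤ (I + K) * (K + 1) := by
    have h3 : (K * J) * (J * J) ≤ ((I + K) * (K + 1)) * (J * J) := by
      calc (K * J) * (J * J) = K * J * J ^ 2 := by ring
        _ ≤ (I * J + K * J) * (K * J + J) := h1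
        _ = ((I + K) * (K + 1)) * (J * J) := by ring
    exact Nat.le_of_mul_le_mul_right h3 (by positivity)
  have h3 : (K : ℝ) * J ≤ ((I : ℝ) + K) * (K + 1) := by exact_mod_cast h2
  have h4 : (4 : ℝ) ≤ K * ε := by
    rw [div_le_iff₀ hε] at hK
    exact hK
  have h5 : ((K * (K + 1) + 1 : ℕ) : ℝ) ≤ J := by exact_mod_cast hJ
  push_cast at h5
  have hKr : (1 : ℝ) ≤ K := by exact_mod_cast hKpos
  have hJr : (1 : ℝ) ≤ J := by exact_mod_cast hJpos
  have h6 : ((I : ℝ) + K) * (K + 1) ≤ ((1 - ε) * J + K) * (K + 1) := by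
    apply mul_le_mul_of_nonneg_right _ (by positivity)
    linarith
  have h7 : ε * (K + 1) * J ≥ 4 * J := by
    have : ε * (K + 1) ≥ 4 := by nlinarith
    nlinarith
  nlinarith

end Pool.Agent.Lib.MP_b026a7_co
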