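import Pool.Agent.Lib.MP_629a14_nt.Rob.PiAP

/-! Primes in `(x, (1 + ε) x]` for large `x`. -/

namespace Pool.Agent.Lib.MP_b026a7_co

open Finset

theorem exists_prime_near (ε : ℝ) (hε : 0 < ε) :
    ∃ x₀ : ℝ, ∀ x : ℝ, x₀ ≤ x → ∃ p : ℕ, p.Prime ∧ x < p ∧ (p : ℝ) ≤ (1 + ε) * x := by
  classical
  obtain ⟨δ, hδ⟩ : ∃ δ : ℝ, δ = ε / (4 * (1 + ε)) := ⟨_, rfl⟩
  have hδ0 : 0 < δ := by rw [hδ]; positivity
  have hδ1 : δ * (4 * (1 + ε)) = ε := by
    rw [hδ]; field_simp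
  have hδ2 : δ ≤ 1 / 4 := by
    rw [hδ, div_le_div_iff₀ (by positivity) (by norm_num)]
    linarith
  obtain ⟨N₀, hN₀⟩ := Pool.Agent.Lib.MP_629a14_nt.Rob.pi_unif 1 0 le_rfl
    (by norm_num) δ hδ0
  refine ⟨max (N₀ + 1 : ℝ) (2 / ε + 1), fun x hx => ?_⟩
  have hx1 : (N₀ + 1 : ℝ) ≤ x := le_trans (le_max_left _ _) hx
  have hx2 : 2 / ε + 1 ≤ x := le_trans (le_max_right _ _) hx
  have hx0 : 0 < x := by
    have : (0 : ℝ) ≤ N₀ := by positivity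
    linarith
  have hx3 : 2 < ε * x := by
    have h1 : 2 / ε < x := by linarith
    rw [div_lt_iff₀ hε] at h1
    linarith
  obtain ⟨N, hN⟩ : ∃ N : ℕ, N = ⌊(1 + ε) * x⌋₊ := ⟨_, rfl⟩
  obtain ⟨y, hy⟩ : ∃ y : ℕ, y = ⌊x⌋₊ := ⟨_, rfl⟩
  have hxe : x ≤ (1 + ε) * x := by nlinarith
  have hyN : y ≤ N := by
    rw [hN, hy]
    exact Nat.floor_le_floor hxe
  have hyx : (y : ℝ) ≤ x := by rw [hy]; exact Nat.floor_le hx0.le
  have hNx : (N : ℝ) ≤ (1 + ε) * x := by rw [hN]; exact Nat.floor_le (by positivity)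
  have hNx' : (1 + ε) * x < N + 1 := by rw [hN]; exact Nat.lt_floor_add_one _
  have hNN : N₀ ≤ N := by
    refine le_trans ?_ hyN
    rw [hy]
    apply Nat.le_floor
    linarith
  have h1 := hN₀ N hNN N le_rfl
  have h2 := hN₀ N hNN y hyN
  rw [abs_le] at h1 h2
  have h1' := h1.1
  have h2' := h2.2
  have hlog : (0 : ℝ) ≤ Real.log N := Real.log_natCast_nonneg N
  simp only [Nat.totient_one, Nat.cast_one, div_one] at h1' h2'
  have hkey : (((Icc 1 y).filter (fun n => n.Prime ∧ n ≡ 0 [MOD 1])).card : ℝ)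
      < (((Icc 1 N).filter (fun n => n.Prime ∧ n ≡ 0 [MOD 1])).card : ℝ) := by
    by_contra hcon
    push Not at hcon
    have h3 := mul_le_mul_of_nonneg_left hcon hlog
    have h4 : (N : ℝ) - δ * N ≤ y + δ * N := by linarith
    nlinarith
  have hkey' : ((Icc 1 y).filter (fun n => n.Prime ∧ n ≡ 0 [MOD 1])).card
      < ((Icc 1 N).filter (fun n => n.Prime ∧ n ≡ 0 [MOD 1])).card := by exact_mod_cast hkey
  obtain ⟨p, hp, hp'⟩ := Finset.exists_mem_notMem_of_card_lt_card hkey'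
  rw [Finset.mem_filter, Finset.mem_Icc] at hp
  have hpy : y < p := by
    by_contra hcon
    apply hp'
    rw [Finset.mem_filter, Finset.mem_Icc]
    exact ⟨⟨hp.1.1, by omega⟩, hp.2⟩
  refine ⟨p, hp.2.1, ?_, ?_⟩
  · rw [hy] at hpy
    exact (Nat.floor_lt hx0.le).mp hpy
  · have : (p : ℝ) ≤ N := by exact_mod_cast hp.1.2
    linarith

end Pool.Agent.Lib.MP_b026a7_co
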