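import Pool.Agent.Lib.MP_b026a7_co.Family
import Pool.Agent.Lib.MP_b026a7_co.Explicit
import Pool.Agent.Lib.MP_b026a7_co.PrimeGap

/-!
# All large `I ≥ (1 + ε) J` are regular
-/

namespace Pool.Agent.Lib.MP_b026a7_co

open Finset

/-- the range `(1 + ε) J ≤ I ≤ 3 J` -/
private theorem upper_mid (ε : ℝ) (hε : 0 < ε) (hε4 : ε ≤ 1 / 4) :
    ∃ J₀ : ℕ, ∀ J ≥ J₀, ∀ I : ℕ, (1 + ε) * J ≤ I → I ≤ 3 * J → H I J = I * J := by
  set η : ℝ := ε ^ 4 / 10 ^ 8 with hη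
  have hε4' : 0 < ε ^ 4 := by positivity
  have hη0 : 0 < η := by positivity
  have hη1 : η ≤ 1 := by
    have : ε ^ 4 ≤ 1 := pow_le_one₀ hε.le (by linarith)
    rw [hη]
    have h10 : (0:ℝ) < 10 ^ 8 := by norm_num
    rw [div_le_one h10]
    linarith
  obtain ⟨x₀, hx₀⟩ := exists_prime_near η hη0
  obtain ⟨J₀, hJ₀⟩ := exists_nat_ge (|x₀| + 10 ^ 7 / ε ^ 4 + 3)
  refine ⟨J₀, ?_⟩
  intro J hJ I hI hI3
  have hdiv0 : 0 < 10 ^ 7 / ε ^ 4 := by positivity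
  have hJr : |x₀| + 10 ^ 7 / ε ^ 4 + 3 ≤ J := hJ₀.trans (by exact_mod_cast hJ)
  have hJ3r : (3:ℝ) ≤ J := by linarith [abs_nonneg x₀]
  have hJe : 10 ^ 7 / ε ^ 4 ≤ J := by linarith [abs_nonneg x₀]
  have hJ0 : (0:ℝ) < J := by linarith
  have hJe2 : 10 ^ 7 ≤ J * ε ^ 4 := by rwa [div_le_iff₀ hε4'] at hJe
  have hI3r : (I:ℝ) ≤ 3 * J := by exact_mod_cast hI3
  have hεJ : 0 < ε * J := by positivity
  have hJI : (J:ℝ) < I := by linarith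
  set y : ℝ := Real.sqrt (I * J) with hy
  have hy0 : 0 ≤ y := Real.sqrt_nonneg _
  have hy2 : y ^ 2 = I * J := Real.sq_sqrt (by positivity)
  have hyJ : (J:ℝ) ≤ y := by
    rw [hy]; apply Real.le_sqrt_of_sq_le; nlinarith
  have hy2J : y ≤ 2 * J := by
    rw [hy]; apply Real.sqrt_le_iff.mpr
    constructor
    · positivity
    · nlinarith
  obtain ⟨p, hp, hp1, hp2⟩ := hx₀ (y + 1) (by linarith [le_abs_self x₀])
  have hpp : (I:ℝ) * J ≤ p * (p - 1) := by rw [← hy2]; nlinarith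
  have hp0 : (0:ℝ) < p := by linarith
  have hN : I * J ≤ p * (p - 1) := by
    have h1 : ((p - 1 : ℕ) : ℝ) = (p:ℝ) - 1 := by
      rw [Nat.cast_sub hp.one_lt.le]; simp
    have : ((I * J : ℕ) : ℝ) ≤ ((p * (p - 1) : ℕ) : ℝ) := by
      rw [Nat.cast_mul, Nat.cast_mul, h1]; exact hpp
    exact_mod_cast this
  have hJI' : J < I := by exact_mod_cast hJI
  refine H_eq_of_explicit hp hJI' hI3 hN ?_
  have hIJp : I * J ≤ p ^ 2 := by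
    refine hN.trans ?_
    rw [pow_two]; exact Nat.mul_le_mul_left _ (Nat.sub_le _ _)
  have hgoal : (10:ℝ) ^ 6 * (J:ℝ) ^ 2 * ((p:ℝ) ^ 2 - I * J) ≤ ((I:ℝ) - J) ^ 4 := by
    have h1 : (p:ℝ) ^ 2 ≤ (1 + η) ^ 2 * (y + 1) ^ 2 := by
      rw [← mul_pow]
      exact pow_le_pow_left₀ hp0.le hp2 2
    have h2 : (1 + η) ^ 2 ≤ 1 + 3 * η := by nlinarith
    have h3 : (y + 1) ^ 2 ≤ 5 * (J:ℝ) ^ 2 := by nlinarith
    have h4 : (p:ℝ) ^ 2 ≤ (1 + 3 * η) * (y + 1) ^ 2 :=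
      h1.trans (mul_le_mul_of_nonneg_right h2 (by positivity))
    have h5 : (p:ℝ) ^ 2 - I * J ≤ 15 * η * (J:ℝ) ^ 2 + 5 * J := by
      rw [← hy2]
      have h6 : (1 + 3 * η) * (y + 1) ^ 2 - y ^ 2 = 3 * η * (y + 1) ^ 2 + 2 * y + 1 := by ring
      have h7 : 3 * η * (y + 1) ^ 2 ≤ 3 * η * (5 * (J:ℝ) ^ 2) :=
        mul_le_mul_of_nonneg_left h3 (by positivity)
      nlinarith
    have h8 : (10:ℝ) ^ 6 * (15 * η * (J:ℝ) ^ 2 + 5 * J) ≤ ε ^ 4 * (J:ℝ) ^ 2 := by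
      have h9 : (10:ℝ) ^ 6 * (15 * η * (J:ℝ) ^ 2) = 15 / 100 * (ε ^ 4 * (J:ℝ) ^ 2) := by
        rw [hη]; ring
      have h10 : (10:ℝ) ^ 6 * (5 * J) ≤ 1 / 2 * (ε ^ 4 * (J:ℝ) ^ 2) := by nlinarith
      have h11 : 0 ≤ ε ^ 4 * (J:ℝ) ^ 2 := by positivity
      nlinarith
    have h12 : (ε * J) ^ 4 ≤ ((I:ℝ) - J) ^ 4 :=
      pow_le_pow_left₀ hεJ.le (by linarith) 4
    calc (10:ℝ) ^ 6 * (J:ℝ) ^ 2 * ((p:ℝ) ^ 2 - I * J)
        ≤ (10:ℝ) ^ 6 * (J:ℝ) ^ 2 * (15 * η * (J:ℝ) ^ 2 + 5 * J) :=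
          mul_le_mul_of_nonneg_left h5 (by positivity)
      _ = (J:ℝ) ^ 2 * ((10:ℝ) ^ 6 * (15 * η * (J:ℝ) ^ 2 + 5 * J)) := by ring
      _ ≤ (J:ℝ) ^ 2 * (ε ^ 4 * (J:ℝ) ^ 2) := mul_le_mul_of_nonneg_left h8 (by positivity)
      _ = (ε * J) ^ 4 := by ring
      _ ≤ ((I:ℝ) - J) ^ 4 := h12
  have hcast : ((10 ^ 6 * J ^ 2 * (p ^ 2 - I * J) : ℕ) : ℝ) ≤ (((I - J) ^ 4 : ℕ) : ℝ) := by
    rw [Nat.cast_mul, Nat.cast_mul, Nat.cast_sub hIJp, Nat.cast_pow (I - J), Nat.cast_sub hJI'.le]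
    push_cast
    have e6 : (10 : ℝ) ^ 6 = 1000000 := by norm_num
    rw [e6] at hgoal
    exact hgoal
  exact_mod_cast hcast

private theorem upper_small (ε : ℝ) (hε : 0 < ε) (hε4 : ε ≤ 1 / 4) :
    ∃ J₀ : ℕ, ∀ J ≥ J₀, ∀ I : ℕ, (1 + ε) * J ≤ I → H I J = I * J := by
  obtain ⟨J₀, h⟩ := upper_mid ε hε hε4
  refine ⟨max J₀ 4, ?_⟩
  intro J hJ
  have hJ1 : J₀ ≤ J := le_trans (le_max_left _ _) hJ
  have hJ4 : 4 ≤ J := le_trans (le_max_right _ _) hJ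
  have hJ4r : (4:ℝ) ≤ J := by exact_mod_cast hJ4
  have hεJ : ε * J ≤ J / 4 := by nlinarith
  have hεJ0 : 0 < ε * J := by positivity
  set K : ℕ := ⌈(1 + ε) * (J:ℝ)⌉₊ with hK
  have hK1 : (1 + ε) * (J:ℝ) ≤ K := Nat.le_ceil _
  have hK2 : (K:ℝ) < (1 + ε) * J + 1 := Nat.ceil_lt_add_one (by positivity)
  have hK3 : K ≤ 3 * J := by
    have : (K:ℝ) ≤ 3 * J := by linarith
    exact_mod_cast this
  have hK0 : 0 < K := by
    have : (0:ℝ) < K := by linarith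
    exact_mod_cast this
  intro I
  induction I using Nat.strong_induction_on with
  | _ I ih =>
    intro hI
    by_cases hI3 : I ≤ 3 * J
    · exact h J hJ1 I hI hI3
    · push Not at hI3
      have hKI : K ≤ I := by omega
      have hI3r : (3:ℝ) * J < I := by exact_mod_cast hI3
      have h1 : H (I - K) J = (I - K) * J := by
        apply ih (I - K) (by omega)
        rw [Nat.cast_sub hKI]
        linarith
      have h2 : H K J = K * J := h J hJ1 K hK1 hK3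
      have h3 := H_eq_add h1 h2
      rw [Nat.sub_add_cancel hKI] at h3
      exact h3

theorem H_eq_of_large (ε : ℝ) (hε : 0 < ε) :
    ∃ J₀ : ℕ, ∀ J ≥ J₀, ∀ I : ℕ, (1 + ε) * J ≤ I → H I J = I * J := by
  obtain ⟨J₀, h⟩ := upper_small (min ε (1 / 4)) (lt_min hε (by norm_num)) (min_le_right _ _)
  refine ⟨J₀, ?_⟩
  intro J hJ I hI
  apply h J hJ I
  refine le_trans ?_ hI
  have : min ε (1 / 4) ≤ ε := min_le_left _ _
  apply mul_le_mul_of_nonneg_right (by linarith) (Nat.cast_nonneg _)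

end Pool.Agent.Lib.MP_b026a7_co
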